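import Pool.Agent.H246K3.YCNT

/-!
# Counting words with one more block, uniformly in the number of blocks
-/

set_option autoImplicit false

namespace Pool.Agent.K6.H37.MS

open Finset Filter Topology KN KN.K3YCNT
open scoped Classical

noncomputable section

/-- one more block -/
theorem cnt_u (hcon : Y_con) (hbas : Y_bas) (hmem : Y_mem) (hmany : T_many)
    (hrtc : T_rtc) {T L B R : ℕ} (hLL : LLat T L R) (hR : 1 ≤ R) :
    ∃ (c δ : ℝ) (n0 : ℕ), 0 < c ∧ 0 < δ ∧ ∀ v : ℕ → List Dir, SmB L B v → ∀ n N : ℕ, n0 ≤ n →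
      (N : ℝ) ≤ δ * (n : ℝ) ^ (2 / 3 : ℝ) →
      c * (n : ℝ) ^ (2 / 3 : ℝ) * (VZ T L v N n).card ≤ (VZ T L v (N + 1) n).card := by
  obtain ⟨c, hc, hev⟩ := hmany R hR
  obtain ⟨n0, hn0⟩ := eventually_atTop.1 hev
  set r := raZ T L B with hr
  set Q : ℕ := (6 * (6 * (3 * 13 ^ 3))) with hQ
  have hQ0 : (0 : ℝ) < Q := by
    rw [hQ]
    positivity
  have hr0 : (0 : ℝ) < ((2 * r + 1) ^ 3 : ℕ) := by positivity
  refine ⟨c / (2 * Q), c / (2 * ((2 * r + 1) ^ 3 : ℕ)), n0, by positivity, by positivity, ?_⟩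
  intro v hv n N hn hN
  set D := ((List.range N).map (fun i => (blk T (v i)).length - 1)).sum with hD
  set M0 : ℕ := N * (2 * r + 1) ^ 3 with hM0
  have hn1 := hn0 (n + D) (by omega)
  have hn2 : (M0 : ℝ) ≤ c / 2 * (n : ℝ) ^ (2 / 3 : ℝ) := by
    rw [hM0, Nat.cast_mul]
    calc (N : ℝ) * ((2 * r + 1) ^ 3 : ℕ)
        ≤ (c / (2 * ((2 * r + 1) ^ 3 : ℕ)) * (n : ℝ) ^ (2 / 3 : ℝ)) * ((2 * r + 1) ^ 3 : ℕ) :=
          mul_le_mul_of_nonneg_right hN hr0.le
      _ = c / 2 * (n : ℝ) ^ (2 / 3 : ℝ) := by field_simp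
  have hC : ∀ W : List Sz, ∃ C : Finset Z3, W ∈ VZ T L v N n →
      (c / 2 * (n : ℝ) ^ (2 / 3 : ℝ) ≤ C.card ∧ ∀ x ∈ C, ¬ near 6 x 0 ∧
        (∃ N, Cont R {p | p ∈ path (EZ T v W)} x N) ∧ faZ T v r W x) := by
    intro W
    by_cases hW : W ∈ VZ T L v N n
    swap
    · exact ⟨∅, fun h => absurd h hW⟩
    rw [hmem] at hW
    obtain ⟨hW1, hW2, hW3⟩ := hW
    have hlen : (EZ T v W).length = n + D := by
      rw [(hbas T L B v hv W).2.2.1, hW1, (hW2.map _).sum_eq]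
    obtain ⟨C, hC1, hC2⟩ := hn1 (EZ T v W) hW3.ext hlen
    refine ⟨C.filter (fun x => faZ T v r W x), fun _ => ⟨?_, ?_⟩⟩
    · have hbad : (C.filter (fun x => ¬ faZ T v r W x)).card ≤ M0 := by
        have hsub : C.filter (fun x => ¬ faZ T v r W x) ⊆
            (bps T v W).toFinset.biUnion (fun q => box r q) := by
          intro x hx
          rw [mem_filter] at hx
          obtain ⟨-, hx⟩ := hx
          unfold faZ at hx
          push Not at hx
          obtain ⟨A, B', i, d, f, hAB, hx⟩ := hx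
          rw [mem_biUnion]
          refine ⟨pos (EZ T v B'), ?_, mem_box.2 hx⟩
          rw [List.mem_toFinset, hAB]
          exact mem_bps T v A B' i d f
        refine (card_le_card hsub).trans ?_
        refine (card_biUnion_le_card_mul _ _ ((2 * r + 1) ^ 3) (fun q _ => (card_box r q).le)).trans
          ?_
        rw [hM0]
        apply Nat.mul_le_mul_right
        refine (List.toFinset_card_le _).trans ?_
        rw [bps_length, hW2.length_eq, List.length_range]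
      have hsum := card_filter_add_card_filter_not (s := C) (fun x => faZ T v r W x)
      have hn3 : (n : ℝ) ^ (2 / 3 : ℝ) ≤ ((n + D : ℕ) : ℝ) ^ (2 / 3 : ℝ) := by
        apply Real.rpow_le_rpow (by positivity) _ (by norm_num)
        exact_mod_cast Nat.le_add_right _ _
      have hn4 : c * (n : ℝ) ^ (2 / 3 : ℝ) ≤ C.card :=
        (mul_le_mul_of_nonneg_left hn3 hc.le).trans hC1
      have hb' : ((C.filter (fun x => ¬ faZ T v r W x)).card : ℝ) ≤ M0 := by
        exact_mod_cast hbad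
      have hs' : ((C.filter (fun x => faZ T v r W x)).card : ℝ) +
          ((C.filter (fun x => ¬ faZ T v r W x)).card : ℝ) = C.card := by
        exact_mod_cast hsum
      linarith
    · intro x hx
      rw [mem_filter] at hx
      exact ⟨(hC2 x hx.1).1, (hC2 x hx.1).2, hx.2⟩
  choose C hC using hC
  have key := count hmem hrtc T L v N n C (by
    intro W hW x hx
    obtain ⟨-, h3⟩ := hC W hW
    obtain ⟨h4, ⟨N', h5⟩, h6⟩ := h3 x hx
    exact hcon T L B R v hv hLL W ((hmem _ _ _ _ _ _).1 hW).2.2 x N' h5 h4 h6 N)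
  have hlow : c / 2 * (n : ℝ) ^ (2 / 3 : ℝ) * (VZ T L v N n).card ≤
      ((∑ W ∈ VZ T L v N n, (C W).card : ℕ) : ℝ) := by
    push_cast
    rw [mul_comm, ← nsmul_eq_mul]
    exact Finset.card_nsmul_le_sum _ _ _ (fun W hW => (hC W hW).1)
  have key' : ((∑ W ∈ VZ T L v N n, (C W).card : ℕ) : ℝ) ≤ (VZ T L v (N + 1) n).card * Q := by
    exact_mod_cast key
  have hfin := hlow.trans key'
  rw [div_mul_eq_mul_div, div_mul_eq_mul_div, div_le_iff₀ (by positivity)]
  calc c * (n : ℝ) ^ (2 / 3 : ℝ) * (VZ T L v N n).card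
      = 2 * (c / 2 * (n : ℝ) ^ (2 / 3 : ℝ) * (VZ T L v N n).card) := by ring
    _ ≤ 2 * ((VZ T L v (N + 1) n).card * Q) := by linarith
    _ = (VZ T L v (N + 1) n).card * (2 * Q) := by ring

/-- `N` blocks -/
theorem cnt_all (hcon : Y_con) (hbas : Y_bas) (hmem : Y_mem) (hmany : T_many)
    (hrtc : T_rtc) (hzero : Y_zero) {T L B R : ℕ} (hLL : LLat T L R) (hR : 1 ≤ R) :
    ∃ (c δ : ℝ) (n0 : ℕ), 0 < c ∧ 0 < δ ∧ ∀ v : ℕ → List Dir, SmB L B v → ∀ n N : ℕ, n0 ≤ n →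
      (N : ℝ) ≤ δ * (n : ℝ) ^ (2 / 3 : ℝ) →
      (c * (n : ℝ) ^ (2 / 3 : ℝ)) ^ N * a U n ≤ (VZ T L v N n).card := by
  obtain ⟨c, δ, n0, hc, hδ, h⟩ := cnt_u hcon hbas hmem hmany hrtc (B := B) hLL hR
  refine ⟨c, δ, n0, hc, hδ, fun v hv n N hn => ?_⟩
  induction N with
  | zero =>
    intro _
    rw [hzero T L v n]
    simp
  | succ N ih =>
    intro hN
    push_cast at hN
    have h1 := ih (by linarith)
    have h2 := h v hv n N hn (by linarith)
    have h3 : 0 ≤ c * (n : ℝ) ^ (2 / 3 : ℝ) := by positivity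
    calc (c * (n : ℝ) ^ (2 / 3 : ℝ)) ^ (N + 1) * a U n
        = c * (n : ℝ) ^ (2 / 3 : ℝ) * ((c * (n : ℝ) ^ (2 / 3 : ℝ)) ^ N * a U n) := by ring
      _ ≤ c * (n : ℝ) ^ (2 / 3 : ℝ) * (VZ T L v N n).card := mul_le_mul_of_nonneg_left h1 h3
      _ ≤ _ := h2

end

end Pool.Agent.K6.H37.MS
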