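import Pool.Agent.H246K3.YMUL

/-!
# Multiplicity of words with `N` labelled blocks, with an explicit dependence on `N`
-/

set_option autoImplicit false

namespace Pool.Agent.K6.H37.MS

open Finset Filter Topology KN KN.K3YMUL
open scoped Classical

/-- the labels of the blocks occur once -/
theorem sp_inj {T N : ℕ} {v : ℕ → List Dir} {W : List Sz} (hl : (lab W).Perm (List.range N)) :
    (∀ i < N, ∃ m d f, (m, i, d, f) ∈ Sp T v 0 W) ∧
    ∀ m i d f m' d' f', (m, i, d, f) ∈ Sp T v 0 W → (m', i, d', f') ∈ Sp T v 0 W →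
      m = m' ∧ d = d' ∧ f = f' := by
  have hlab : ∀ (W : List Sz) (i : ℕ), i ∈ lab W →
      ∃ A B d f, W = A ++ .bl i d f :: B := by
    intro W i hi
    unfold lab at hi
    rw [List.mem_filterMap] at hi
    obtain ⟨s, hs, he⟩ := hi
    cases s with
    | lt e => simp at he
    | bl j d f =>
      simp only [Option.some.injEq] at he
      subst he
      obtain ⟨A, B, hAB⟩ := List.append_of_mem hs
      exact ⟨A, B, d, f, hAB⟩
  have h1 : ∀ i < N, ∃ m d f, (m, i, d, f) ∈ Sp T v 0 W := by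
    intro i hi
    obtain ⟨A, B, d, f, e⟩ := hlab W i (hl.mem_iff.2 (List.mem_range.2 hi))
    refine ⟨0 + (EZ T v A).length, d, f, ?_⟩
    rw [e]
    exact mem_Sp T v A B 0 i d f
  refine ⟨h1, ?_⟩
  have hmaps : Set.MapsTo (fun q : ℕ × ℕ × Dir × Dir => q.2.1) (Sp T v 0 W : Set _)
      (range N : Set ℕ) := by
    rintro ⟨m, i, d, f⟩ hq
    obtain ⟨A, B, e, -⟩ := Sp_mem T v W 0 m i d f hq
    have := lab_mem e
    rw [hl.mem_iff, List.mem_range] at this
    simpa using this
  have hsurj : Set.SurjOn (fun q : ℕ × ℕ × Dir × Dir => q.2.1) (Sp T v 0 W : Set _)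
      (range N : Set ℕ) := by
    intro i hi
    obtain ⟨m, d, f, h⟩ := h1 i (by simpa using hi)
    exact ⟨(m, i, d, f), h, rfl⟩
  have hcard : (Sp T v 0 W).card ≤ (range N).card := by
    refine (Sp_card T v W 0).trans ?_
    rw [hl.length_eq, List.length_range, card_range]
  have hinj := Finset.injOn_of_surjOn_of_card_le _ hmaps hsurj hcard
  intro m i d f m' d' f' h h'
  have := hinj h h' rfl
  simp only [Prod.mk.injEq, true_and] at this
  exact this

theorem mul_u (hmem : Y_mem) (h : Y_over) (ks : ℕ → List V) (hk : ∀ i, NonInv (ks i))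
    {T L B : ℕ} {v : ℕ → List Dir} (hv : SmB L B v) (hs : ∀ i, Same (vl (.zm :: v i)) (ks i))
    (N n : ℕ) (hn : B + 2 * T + 3 ≤ n) (w : List Dir) :
    ((VZ T L v N n).filter (fun W => EZ T v W = w)).card ≤ (N * (2 * (B + 2 * T)) * 36) ^ N := by
  set D := B + 2 * T with hD
  set F := (VZ T L v N n).filter (fun W => EZ T v W = w) with hF
  rcases F.eq_empty_or_nonempty with he | ⟨W0, hW0⟩
  · rw [he]; simp
  · rw [hF, Finset.mem_filter, hmem] at hW0
    obtain ⟨⟨hl0, hn0, hV0⟩, hw0⟩ := hW0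
    have hl1 : B + 2 * T + 3 ≤ W0.length := by rw [hl0]; exact hn
    set J : Finset ℕ :=
      (Sp T v 0 W0).biUnion (fun q => Finset.Ico (q.1 + 1 - D) (q.1 + D)) with hJ
    have hJc : J.card ≤ N * (2 * D) := by
      refine Finset.card_biUnion_le.trans ?_
      calc ∑ q ∈ Sp T v 0 W0, (Finset.Ico (q.1 + 1 - D) (q.1 + D)).card
          ≤ ∑ _q ∈ Sp T v 0 W0, 2 * D := by
            refine Finset.sum_le_sum fun q _ => ?_
            rw [Nat.card_Ico]
            omega
        _ = (Sp T v 0 W0).card * (2 * D) := by rw [Finset.sum_const, smul_eq_mul]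
        _ ≤ N * (2 * D) := by
            refine Nat.mul_le_mul_right _ ?_
            refine (Sp_card T v W0 0).trans ?_
            rw [hn0.length_eq, List.length_range]
    -- the function of a word
    have hg : ∀ W : List Sz, ∃ g : Fin N → ℕ × Dir × Dir, W ∈ F →
        (∀ i, (g i).1 ∈ J) ∧ ∀ m i d f, (m, i, d, f) ∈ Sp T v 0 W ↔
          ∃ hi : i < N, g ⟨i, hi⟩ = (m, d, f) := by
      intro W
      by_cases hW : W ∈ F
      swap
      · exact ⟨fun _ => (0, .xp, .xp), fun h => absurd h hW⟩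
      rw [hF, Finset.mem_filter, hmem] at hW
      obtain ⟨⟨_, hlab, hV⟩, hw⟩ := hW
      obtain ⟨h1, h2⟩ := sp_inj (T := T) (v := v) hlab
      have h3 : ∀ i : Fin N, ∃ q : ℕ × Dir × Dir, (q.1, (i : ℕ), q.2.1, q.2.2) ∈ Sp T v 0 W := by
        intro i
        obtain ⟨m, d, f, h⟩ := h1 i i.2
        exact ⟨(m, d, f), h⟩
      choose g hg using h3
      refine ⟨g, fun _ => ⟨fun i => ?_, fun m i d f => ⟨fun hm => ?_, ?_⟩⟩⟩
      · obtain ⟨A, B', h3, h4⟩ := Sp_mem T v W 0 _ _ _ _ (hg i)
        obtain ⟨A0, B0, i0, d0, f0, h5, h6, h7⟩ :=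
          h ks hk T L B v hv hs W0 W hV0 hV hl1 (by rw [hw0, hw]) A B' _ _ _ h3
        rw [hJ, Finset.mem_biUnion]
        refine ⟨(0 + (EZ T v A0).length, i0, d0, f0), ?_, ?_⟩
        · rw [h5]; exact mem_Sp T v A0 B0 0 i0 d0 f0
        · simp only [Finset.mem_Ico]
          omega
      · obtain ⟨A, B', h3, -⟩ := Sp_mem T v W 0 _ _ _ _ hm
        have hi := lab_mem h3
        rw [hlab.mem_iff, List.mem_range] at hi
        refine ⟨hi, ?_⟩
        obtain ⟨e1, e2, e3⟩ := h2 _ _ _ _ _ _ _ (hg ⟨i, hi⟩) hm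
        exact Prod.ext e1 (Prod.ext e2 e3)
      · rintro ⟨hi, e⟩
        have := hg ⟨i, hi⟩
        rw [e] at this
        exact this
    choose g hg using hg
    have hle : F.card ≤ (Fintype.piFinset (fun _ : Fin N =>
        J ×ˢ (univ : Finset (Dir × Dir)))).card := by
      refine Finset.card_le_card_of_injOn g ?_ ?_
      · intro W hW
        rw [Finset.mem_coe] at hW
        rw [Finset.mem_coe, Fintype.mem_piFinset]
        intro i
        exact Finset.mem_product.2 ⟨(hg W hW).1 i, Finset.mem_univ _⟩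
      · intro W hW W' hW' he
        rw [Finset.mem_coe] at hW hW'
        have e1 : Sp T v 0 W = Sp T v 0 W' := by
          ext ⟨m, i, d, f⟩
          rw [(hg W hW).2, (hg W' hW').2, he]
        rw [hF, Finset.mem_filter] at hW hW'
        exact inj T v W W' 0 (by rw [hW.2, hW'.2]) e1
    refine hle.trans ?_
    rw [Fintype.card_piFinset, Finset.prod_const, Finset.card_univ, Fintype.card_fin,
      Finset.card_product, Finset.card_univ]
    have e1 : Fintype.card (Dir × Dir) = 36 := rfl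
    rw [e1]
    exact Nat.pow_le_pow_left (Nat.mul_le_mul_right _ hJc) N

end Pool.Agent.K6.H37.MS
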