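import Pool.Agent.H246K3.All3
import Pool.Agent.K6.H37.MS.Cnt
import Pool.Agent.K6.H37.MS.Mul

/-!
# Connected sums of many knots: a lower bound uniform in the number of summands
-/

set_option autoImplicit false

namespace Pool.Agent.K6.H37.MS

open Finset Filter Topology KN
open scoped Classical

noncomputable section

/-- sequences of knots with bounded blocks -/
theorem base_u (L B : ℕ) : ∃ (c δ : ℝ) (n0 D : ℕ), 0 < c ∧ 0 < δ ∧
    ∀ (ks : ℕ → List V) (v : ℕ → List Dir), (∀ i, NonInv (ks i)) → SmB L B v →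
      (∀ i, Same (vl (.zm :: v i)) (ks i)) → ∀ N : ℕ, 1 ≤ N → ∀ l : List V, Sums ks N l →
      ∃ m : ℕ, m ≤ D * N ∧ m % 2 = 0 ∧ ∀ n : ℕ, n0 ≤ n →
        (N : ℝ) ≤ δ * (n : ℝ) ^ (2 / 3 : ℝ) →
        (c * (n : ℝ) ^ (2 / 3 : ℝ) / N) ^ N * a U n ≤ a (KT l) (n + m) := by
  obtain ⟨R, hR, hLR⟩ := d_LL (2 * L + 4) L le_rfl
  obtain ⟨c, δ, n0, hc, hδ, h1⟩ := cnt_all e_con e_bas Y_mem_proof d_many T_rtc_proof e_zero
    (B := B) hLR hR
  obtain ⟨T, hT⟩ : ∃ T, T = 2 * L + 4 := ⟨_, rfl⟩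
  rw [← hT] at h1
  obtain ⟨D, hD⟩ : ∃ D, D = B + 2 * T := ⟨_, rfl⟩
  have hD0 : 0 < D := by omega
  have hDr : (0 : ℝ) < D := by exact_mod_cast hD0
  refine ⟨c / (72 * D), δ, n0 + D + 3, D, by positivity, hδ, ?_⟩
  intro ks v hk hv hvk N hN1 l hl
  have hNr : (0 : ℝ) < N := by exact_mod_cast hN1
  obtain ⟨m, hm⟩ : ∃ m : ℕ, m = ((List.range N).map (fun i => (blk T (v i)).length - 1)).sum :=
    ⟨_, rfl⟩
  refine ⟨m, ?_, ?_, fun n hn hN => ?_⟩
  · rw [hm]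
    have h2 := List.sum_le_card_nsmul ((List.range N).map (fun i => (blk T (v i)).length - 1)) D
      (by
        intro x hx
        obtain ⟨i, -, rfl⟩ := List.mem_map.1 hx
        have := K3YMUL.blk_le hv T i
        omega)
    rw [List.length_map, List.length_range, smul_eq_mul] at h2
    rw [mul_comm]
    exact h2
  · rw [hm]
    apply K3YALL.sum_even
    intro x hx
    obtain ⟨i, -, rfl⟩ := List.mem_map.1 hx
    have hlen : (blk T (v i)).length = 2 * (T + 1) + (v i).length := by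
      unfold blk
      simp only [List.length_append, List.length_replicate]
      omega
    have hodd : ((v i).length + 1) % 2 = 0 := by
      have h2 := even_of_closed ((hv i).1.1.2.1)
      simpa using h2
    omega
  · have h2 := h1 v hv n N (by omega) hN
    have h3 : (VZ T L v N n).card ≤ (N * (2 * D) * 36) ^ N * a (KT l) (n + m) := by
      have h4 : (VZ T L v N n).card ≤
          (N * (2 * D) * 36) ^ N * ((VZ T L v N n).image (EZ T v)).card := by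
        apply Finset.card_le_mul_card_image
        intro w _
        rw [hD]
        exact mul_u Y_mem_proof e_over ks hk hv hvk N n (by omega) w
      refine h4.trans (Nat.mul_le_mul_left _ ?_)
      unfold a
      apply Finset.card_le_card
      intro w hw
      obtain ⟨W, hW, rfl⟩ := Finset.mem_image.1 hw
      obtain ⟨hW1, hW2, hW3⟩ := (Y_mem_proof T L v N n W).1 hW
      rw [mem_K]
      refine ⟨?_, hW3.ext, Or.inl ?_⟩
      · rw [(e_bas T L B v hv W).2.2.1, hW1, hm, (hW2.map _).sum_eq]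
      · exact e_sumu ks N _ _ (e_type ks T L B v hv hvk N W hW2 hW3) hl
    have h5 : ((VZ T L v N n).card : ℝ) ≤ ((N : ℝ) * (72 * D)) ^ N * a (KT l) (n + m) := by
      have h6 : ((VZ T L v N n).card : ℝ) ≤
          (((N * (2 * D) * 36) ^ N * a (KT l) (n + m) : ℕ) : ℝ) := by exact_mod_cast h3
      refine h6.trans (le_of_eq ?_)
      push_cast
      ring
    have h7 : 0 < ((N : ℝ) * (72 * D)) ^ N := by positivity
    have h8 : (c / (72 * D) * (n : ℝ) ^ (2 / 3 : ℝ) / N) ^ N =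
        (c * (n : ℝ) ^ (2 / 3 : ℝ)) ^ N / ((N : ℝ) * (72 * D)) ^ N := by
      rw [← div_pow]
      congr 1
      field_simp
    rw [h8, div_mul_eq_mul_div, div_le_iff₀ h7, mul_comm (a (KT l) (n + m) : ℝ)]
    exact h2.trans h5

/-- the same length on both sides -/
theorem same_len (L B : ℕ) : ∃ c δ : ℝ, 0 < c ∧ 0 < δ ∧ ∀ᶠ j : ℕ in atTop,
    ∀ (ks : ℕ → List V) (v : ℕ → List Dir), (∀ i, NonInv (ks i)) → SmB L B v →
      (∀ i, Same (vl (.zm :: v i)) (ks i)) → ∀ N : ℕ, 1 ≤ N →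
      (N : ℝ) ≤ δ * (2 * j : ℝ) ^ (2 / 3 : ℝ) → ∀ l : List V, Sums ks N l →
        (c * (2 * j : ℝ) ^ (2 / 3 : ℝ) / N) ^ N * pq U (2 * j) ≤ pq (KT l) (2 * j) := by
  obtain ⟨c, δ, n0, D, hc, hδ, h⟩ := base_u L B
  obtain ⟨B₀, hB₀, i0, hi0⟩ := K2SHIFT.ratio_U
  obtain ⟨B₁, hB₁⟩ : ∃ B₁ : ℝ, B₁ = max B₀ 1 := ⟨_, rfl⟩
  have hB1 : 1 ≤ B₁ := by rw [hB₁]; exact le_max_right _ _
  have hB10 : 0 < B₁ := by linarith
  have hpow := K2SHIFT.pow_bound (fun i => (a U (2 * i) : ℝ)) B₁ hB10.le i0 (by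
    intro i hi
    refine (hi0 i hi).trans (mul_le_mul_of_nonneg_right ?_ (Nat.cast_nonneg _))
    rw [hB₁]; exact le_max_left _ _)
  have hlim : ∀ᶠ j : ℕ in atTop, (D : ℝ) * (δ / 2 * (2 * j : ℝ) ^ (2 / 3 : ℝ)) ≤ j := by
    have h1 : Tendsto (fun x : ℝ => x ^ (-(1 / 3) : ℝ)) atTop (𝓝 0) :=
      tendsto_rpow_neg_atTop (by norm_num)
    have h2 : Tendsto (fun j : ℕ => (2 * j : ℝ)) atTop atTop :=
      tendsto_natCast_atTop_atTop.const_mul_atTop (by norm_num : (0 : ℝ) < 2)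
    have h3 := (h1.comp h2).const_mul ((D : ℝ) * (δ / 2))
    rw [mul_zero] at h3
    filter_upwards [h3.eventually_lt_const (show (0 : ℝ) < 1 / 2 by norm_num),
      eventually_ge_atTop 1] with j h4 h5
    have hj : (1 : ℝ) ≤ j := by exact_mod_cast h5
    have hj2 : (0 : ℝ) < 2 * j := by linarith
    simp only [Function.comp] at h4
    have e : (2 * j : ℝ) ^ (2 / 3 : ℝ) = (2 * j) * (2 * j : ℝ) ^ (-(1 / 3) : ℝ) := by
      nth_rewrite 2 [← Real.rpow_one (2 * j : ℝ)]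
      rw [← Real.rpow_add hj2]
      norm_num
    rw [e]
    calc (D : ℝ) * (δ / 2 * ((2 * j) * (2 * j : ℝ) ^ (-(1 / 3) : ℝ)))
        = (2 * j) * (D * (δ / 2) * (2 * j : ℝ) ^ (-(1 / 3) : ℝ)) := by ring
      _ ≤ (2 * j) * (1 / 2) := mul_le_mul_of_nonneg_left h4.le hj2.le
      _ = j := by ring
  refine ⟨c / (2 * B₁ ^ D), δ / 2, by positivity, by positivity, ?_⟩
  filter_upwards [hlim, eventually_ge_atTop (n0 + i0 + i0 + 2)] with j hj1 hj2
  intro ks v hk hv hvk N hN1 hN l hl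
  have hNr : (0 : ℝ) < N := by exact_mod_cast hN1
  have hj0 : (0 : ℝ) < j := by exact_mod_cast (by omega : 0 < j)
  have hDN : D * N ≤ j := by
    have : (D : ℝ) * N ≤ j :=
      (mul_le_mul_of_nonneg_left hN (Nat.cast_nonneg D)).trans hj1
    exact_mod_cast this
  obtain ⟨m, hm1, hm2, hm3⟩ := h ks v hk hv hvk N hN1 l hl
  obtain ⟨r, rfl⟩ : ∃ r, m = 2 * r := ⟨m / 2, by omega⟩
  obtain ⟨i, rfl⟩ : ∃ i, j = i + r := ⟨j - r, by omega⟩
  have hi1 : i + r ≤ 2 * i := by omega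
  have hiX : (2 * ((i + r : ℕ) : ℝ)) ^ (2 / 3 : ℝ) ≤ 2 * ((2 * i : ℕ) : ℝ) ^ (2 / 3 : ℝ) := by
    rw [Real.mul_rpow (by norm_num) hj0.le]
    have e2 : (2 : ℝ) ^ (2 / 3 : ℝ) ≤ 2 := by
      calc (2 : ℝ) ^ (2 / 3 : ℝ) ≤ 2 ^ (1 : ℝ) :=
            Real.rpow_le_rpow_of_exponent_le (by norm_num) (by norm_num)
        _ = 2 := Real.rpow_one 2
    have e3 : ((i + r : ℕ) : ℝ) ^ (2 / 3 : ℝ) ≤ ((2 * i : ℕ) : ℝ) ^ (2 / 3 : ℝ) :=
      Real.rpow_le_rpow hj0.le (by exact_mod_cast hi1) (by norm_num)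
    exact mul_le_mul e2 e3 (by positivity) (by norm_num)
  have h1 := hm3 (2 * i) (by omega) (by
    calc (N : ℝ) ≤ δ / 2 * (2 * ((i + r : ℕ) : ℝ)) ^ (2 / 3 : ℝ) := hN
      _ ≤ δ / 2 * (2 * ((2 * i : ℕ) : ℝ) ^ (2 / 3 : ℝ)) :=
          mul_le_mul_of_nonneg_left hiX (by positivity)
      _ = _ := by ring)
  have e1 : 2 * i + 2 * r = 2 * (i + r) := by ring
  rw [e1] at h1
  have h2 : (a U (2 * (i + r)) : ℝ) ≤ (B₁ ^ D) ^ N * a U (2 * i) := by
    refine (hpow r i (by omega)).trans (mul_le_mul_of_nonneg_right ?_ (Nat.cast_nonneg _))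
    rw [← pow_mul]
    exact pow_le_pow_right₀ hB1 (by omega)
  have key : (c / (2 * B₁ ^ D) * (2 * ((i + r : ℕ) : ℝ)) ^ (2 / 3 : ℝ) / N) ^ N *
      (a U (2 * (i + r)) : ℝ) ≤ a (KT l) (2 * (i + r)) := by
    have hBD : 0 < B₁ ^ D := by positivity
    calc (c / (2 * B₁ ^ D) * (2 * ((i + r : ℕ) : ℝ)) ^ (2 / 3 : ℝ) / N) ^ N *
          (a U (2 * (i + r)) : ℝ)
        ≤ (c / (2 * B₁ ^ D) * (2 * ((2 * i : ℕ) : ℝ) ^ (2 / 3 : ℝ)) / N) ^ N *
          ((B₁ ^ D) ^ N * a U (2 * i)) := by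
          apply mul_le_mul _ h2 (Nat.cast_nonneg _) (by positivity)
          apply pow_le_pow_left₀ (by positivity)
          apply div_le_div_of_nonneg_right _ hNr.le
          exact mul_le_mul_of_nonneg_left hiX (by positivity)
      _ = (c * ((2 * i : ℕ) : ℝ) ^ (2 / 3 : ℝ) / N) ^ N * a U (2 * i) := by
          rw [← mul_assoc, ← mul_pow]
          congr 2
          field_simp
      _ ≤ a (KT l) (2 * (i + r)) := h1
  rw [GEN.pn_eq, GEN.pn_eq, ← mul_div_assoc]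
  exact div_le_div_of_nonneg_right key (by positivity)

/-- finite families of knots -/
theorem fam_u {ι : Type} [Finite ι] (κ : ι → List V) (hκ : ∀ i, NCG (κ i))
    (hex : ∀ i, ∃ w, SAP w ∧ Same (vl w) (κ i)) : ∃ c δ : ℝ, 0 < c ∧ 0 < δ ∧
    ∀ᶠ j : ℕ in atTop, ∀ N : ℕ, 1 ≤ N → (N : ℝ) ≤ δ * (2 * j : ℝ) ^ (2 / 3 : ℝ) →
      ∀ (s : ℕ → ι) (l : List V), Sums (fun i => κ (s i)) N l →
        (c * (2 * j : ℝ) ^ (2 / 3 : ℝ) / N) ^ N * pq U (2 * j) ≤ pq (KT l) (2 * j) := by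
  have := Fintype.ofFinite ι
  choose L v hv hvk using fun i => T_vex_proof _ (hex i)
  obtain ⟨c, δ, hc, hδ, h⟩ := same_len (univ.sup L)
    (univ.sup (fun i => (blk 0 (v i)).length))
  refine ⟨c, δ, hc, hδ, ?_⟩
  filter_upwards [h] with j hj
  intro N hN1 hN s l hl
  refine hj (fun i => κ (s i)) (fun i => v (s i)) (fun i => ncg_ninv _ (hκ _)) ?_
    (fun i => hvk _) N hN1 hN l hl
  intro i
  exact ⟨K3YALL.SmR_mono (Finset.le_sup (f := L) (Finset.mem_univ _)) (hv _),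
    Finset.le_sup (f := fun i => (blk 0 (v i)).length) (Finset.mem_univ _)⟩

end

end Pool.Agent.K6.H37.MS
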