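import Pool.Agent.K6.H37.MS.All
import Pool.Agent.TH296.KQ.Main

/-!
# Classes of knots closed under connected sums, compared with the unknot
-/

set_option autoImplicit false

namespace Pool.Agent.K6.H37.MS

open Finset Filter Topology KN
open scoped Classical

noncomputable section

variable {Q : List Dir → Prop}

/-- a connected sum of copies of a knot of the class is in the class -/
theorem sums_mem (hQ : KClass Q) (hc : CSum Q) {w0 : List Dir} (h0 : SAP w0) (hq : Q w0) :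
    ∀ (N : ℕ) (l : List V), Sums (fun _ => vl w0) (N + 1) l →
      ∀ w, SAP w → Same (vl w) l → Q w := by
  intro N
  induction N with
  | zero =>
    rintro l ⟨l1, v, l2, h1, h2, h3, h4⟩ w hw hl
    have h5 := c_glue2 l1 v l2 h1 h2
    exact hQ.same w0 w h0 hw (((hl.trans h4).trans h5).trans h3).symm hq
  | succ N ih =>
    rintro l ⟨l1, v, l2, h1, h2, h3, h4⟩ w hw hl
    have h5 : Q (l1 ++ .zp :: l2) := ih _ h2 _ h1.1 (Same.refl _)
    have h6 : Q (.zm :: v) := hQ.same w0 _ h0 h1.2.2.1 h3.symm hq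
    have h7 := hc l1 v l2 h1 h5 h6
    exact hQ.same _ w (S_glueSAP_proof l1 v l2 h1) hw (hl.trans h4).symm h7

theorem pq_mono {P : List Dir → Prop} (hPQ : ∀ w, SAP w → P w → Q w) (n : ℕ) :
    pq P n ≤ pq Q n := by
  unfold pq
  apply div_le_div_of_nonneg_right _ (by positivity)
  have : a P n ≤ a Q n := by
    unfold a
    refine card_le_card fun w hw => ?_
    rw [mem_K] at hw ⊢
    exact ⟨hw.1, hw.2.1, hPQ w hw.2.1 hw.2.2⟩
  exact_mod_cast this

/-- the type of a member is contained in the class -/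
theorem kt_sub (hQ : KClass Q) {w : List Dir} (hw : SAP w) (hq : Q w) :
    ∀ w', SAP w' → KT (vl w) w' → Q w' := by
  rintro w' hw' (h | h)
  · exact hQ.same w w' hw hw' h.symm hq
  · refine hQ.rev w w' hw hw' ?_ hq
    have h2 := (c_rev _ _).2 h
    rw [List.reverse_reverse] at h2
    exact h2.symm

theorem lim_x : Tendsto (fun j : ℕ => (2 * j : ℝ) ^ (2 / 3 : ℝ)) atTop atTop :=
  (tendsto_rpow_atTop (by norm_num)).comp
    (tendsto_natCast_atTop_atTop.const_mul_atTop (by norm_num : (0 : ℝ) < 2))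

/-- **the class has many more polygons than the unknot** -/
theorem class_lower (hQ : KClass Q) (hc : CSum Q) {w0 : List Dir} (h0 : SAP w0) (hq : Q w0)
    (hn : NCG (vl w0)) : ∃ c : ℝ, 0 < c ∧ ∀ᶠ j : ℕ in atTop,
      Real.exp (c * (2 * j : ℝ) ^ (2 / 3 : ℝ)) * pq U (2 * j) ≤ pq Q (2 * j) := by
  obtain ⟨c, δ, hc0, hδ, h⟩ := fam_u (ι := Unit) (fun _ => vl w0) (fun _ => hn)
    (fun _ => ⟨w0, h0, Same.refl _⟩)
  obtain ⟨d, hd⟩ : ∃ d : ℝ, d = min δ (c / Real.exp 1) := ⟨_, rfl⟩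
  have he : (0 : ℝ) < Real.exp 1 := Real.exp_pos 1
  have hd0 : 0 < d := by rw [hd]; positivity
  have hd1 : d ≤ δ := by rw [hd]; exact min_le_left _ _
  have hd2 : d * Real.exp 1 ≤ c := by
    rw [← le_div_iff₀ he, hd]; exact min_le_right _ _
  refine ⟨d / 2, by positivity, ?_⟩
  filter_upwards [h, lim_x.eventually_ge_atTop (2 / d)] with j hj hX
  obtain ⟨X, hXe⟩ : ∃ X : ℝ, X = (2 * j : ℝ) ^ (2 / 3 : ℝ) := ⟨_, rfl⟩
  rw [← hXe] at hj hX ⊢
  have hX0 : 0 < X := lt_of_lt_of_le (by positivity) hX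
  have hdX : 2 ≤ d * X := by
    rw [div_le_iff₀ hd0] at hX
    linarith
  obtain ⟨N, hN⟩ : ∃ N : ℕ, N = ⌊d * X⌋₊ := ⟨_, rfl⟩
  have hN1 : (N : ℝ) ≤ d * X := by rw [hN]; exact Nat.floor_le (by positivity)
  have hN2 : d * X < N + 1 := by rw [hN]; exact Nat.lt_floor_add_one _
  have hN3 : 1 ≤ N := by
    have : (1 : ℝ) < N := by linarith
    exact_mod_cast this.le
  have hN4 : d * X / 2 ≤ N := by linarith
  have hNr : (0 : ℝ) < N := by exact_mod_cast hN3
  obtain ⟨w, hw, hs⟩ := e_sume (fun _ => vl w0) N (fun _ _ => ⟨w0, h0, Same.refl _⟩)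
  have h1 := hj N hN3 (hN1.trans (mul_le_mul_of_nonneg_right hd1 hX0.le)) (fun _ => ()) (vl w) hs
  have h2 : Q w := by
    obtain ⟨N', rfl⟩ : ∃ N', N = N' + 1 := ⟨N - 1, by omega⟩
    exact sums_mem hQ hc h0 hq N' _ hs w hw (Same.refl _)
  refine le_trans ?_ (h1.trans (pq_mono (kt_sub hQ hw h2) _))
  refine mul_le_mul_of_nonneg_right ?_ (GEN.pn_nonneg _ _)
  calc Real.exp (d / 2 * X) ≤ Real.exp (N * 1) := by
        apply Real.exp_le_exp.2; linarith
    _ = Real.exp 1 ^ N := by rw [Real.exp_nat_mul]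
    _ ≤ (c * X / N) ^ N := by
        apply pow_le_pow_left₀ he.le
        rw [le_div_iff₀ hNr]
        calc Real.exp 1 * N ≤ Real.exp 1 * (d * X) := mul_le_mul_of_nonneg_left hN1 he.le
          _ = d * Real.exp 1 * X := by ring
          _ ≤ c * X := mul_le_mul_of_nonneg_right hd2 hX0.le

/-- **the unknot is rare with respect to the growth rate of the class** -/
theorem class_upper (hQ : KClass Q) (hc : CSum Q) {w0 : List Dir} (h0 : SAP w0) (hq : Q w0)
    (hn : NCG (vl w0)) : ∃ c : ℝ, 0 < c ∧ ∀ᶠ j : ℕ in atTop,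
      pq U (2 * j) ≤ Real.exp (-(c * (2 * j : ℝ) ^ (2 / 3 : ℝ))) * gr Q ^ (2 * j) := by
  obtain ⟨c, hc0, h⟩ := class_lower hQ hc h0 hq hn
  obtain ⟨C0, hC0⟩ := (KN.KQ.class_all hQ hc ⟨w0, h0, hq⟩).1
  obtain ⟨g1, -, g2⟩ := gr_bounds Q hQ ⟨w0, h0, hq⟩
  refine ⟨c, hc0, ?_⟩
  filter_upwards [h, lim_x.eventually_ge_atTop (max C0 1), eventually_ge_atTop 1] with j h1 h2 h3
  have hj0 : (1 : ℝ) ≤ j := by exact_mod_cast h3
  have hX : C0 ≤ (2 * j : ℝ) ^ (2 / 3 : ℝ) := (le_max_left _ _).trans h2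
  have hX1 : 1 ≤ (2 * j : ℝ) ^ (2 / 3 : ℝ) := (le_max_right _ _).trans h2
  have h4 := hC0 (2 * j) (by omega)
  push_cast at h4
  have hg : 0 ≤ gr Q ^ (2 * j) := by
    have : 0 < gr Q := by linarith
    positivity
  have h5 : C0 * (2 * j : ℝ) ^ (-(2 / 3) : ℝ) ≤ 1 := by
    rw [Real.rpow_neg (by positivity)]
    rw [mul_inv_le_iff₀ (by positivity), one_mul]
    exact hX
  have h6 : pq Q (2 * j) ≤ gr Q ^ (2 * j) := by
    refine h4.trans ?_
    calc C0 * (2 * j : ℝ) ^ (-(2 / 3) : ℝ) * gr Q ^ (2 * j) ≤ 1 * gr Q ^ (2 * j) :=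
          mul_le_mul_of_nonneg_right h5 hg
      _ = _ := one_mul _
  rw [Real.exp_neg, inv_mul_eq_div, le_div_iff₀ (Real.exp_pos _), mul_comm]
  exact h1.trans h6

/-- **a dichotomy** -/
theorem class_or (hQ : KClass Q) (hc : CSum Q) {w0 : List Dir} (h0 : SAP w0) (hq : Q w0)
    (hn : NCG (vl w0)) : gr U < gr Q ∨ ∃ c : ℝ, 0 < c ∧ ∀ᶠ j : ℕ in atTop,
      pq U (2 * j) ≤ Real.exp (-(c * (2 * j : ℝ) ^ (2 / 3 : ℝ))) * gr U ^ (2 * j) := by
  by_cases hlt : gr U < gr Q
  · exact Or.inl hlt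
  · right
    obtain ⟨c, hc0, h⟩ := class_upper hQ hc h0 hq hn
    obtain ⟨g1, -, g2⟩ := gr_bounds Q hQ ⟨w0, h0, hq⟩
    refine ⟨c, hc0, ?_⟩
    filter_upwards [h] with j hj
    refine hj.trans (mul_le_mul_of_nonneg_left ?_ (Real.exp_pos _).le)
    have : 0 < gr Q := by linarith
    exact pow_le_pow_left₀ this.le (not_lt.1 hlt) _

/-- **if the unknotted polygons have the expected asymptotic form, then the growth rate of the
class is larger** -/
theorem class_form (hQ : KClass Q) (hc : CSum Q) {w0 : List Dir} (h0 : SAP w0) (hq : Q w0)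
    (hn : NCG (vl w0)) {A α : ℝ} (hA : 0 < A)
    (hF : Tendsto (fun j : ℕ => pq U (2 * j) / ((2 * j : ℝ) ^ (α - 3) * gr U ^ (2 * j))) atTop
      (𝓝 A)) : gr U < gr Q := by
  rcases class_or hQ hc h0 hq hn with h | ⟨c, hc0, h⟩
  · exact h
  · exfalso
    obtain ⟨g1, -, g2⟩ := gr_bounds U (GEN.kt_class sq) K2SHIFT.u_ne
    have hg : 0 < gr U := by linarith
    -- the upper bound tends to zero
    have h1 : Tendsto (fun x : ℝ => x ^ (3 / 2 * (3 - α)) * Real.exp (-c * x)) atTop (𝓝 0) :=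
      tendsto_rpow_mul_exp_neg_mul_atTop_nhds_zero _ _ hc0
    have h2 := h1.comp lim_x
    have h3 : Tendsto (fun j : ℕ => pq U (2 * j) / ((2 * j : ℝ) ^ (α - 3) * gr U ^ (2 * j)))
        atTop (𝓝 0) := by
      refine squeeze_zero' ?_ ?_ h2
      · filter_upwards with j
        exact div_nonneg (GEN.pn_nonneg _ _) (by positivity)
      · filter_upwards [h, eventually_ge_atTop 1] with j hj hj1
        have hj0 : (1 : ℝ) ≤ j := by exact_mod_cast hj1
        have hj2 : (0 : ℝ) < 2 * j := by linarith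
        have hgj : 0 < gr U ^ (2 * j) := by positivity
        simp only [Function.comp]
        rw [div_le_iff₀ (by positivity)]
        refine hj.trans (le_of_eq ?_)
        rw [← Real.rpow_mul hj2.le]
        have e : (2 * j : ℝ) ^ (2 / 3 * (3 / 2 * (3 - α))) * (2 * j : ℝ) ^ (α - 3) = 1 := by
          rw [← Real.rpow_add hj2]
          ring_nf
          simp
        calc Real.exp (-(c * (2 * j : ℝ) ^ (2 / 3 : ℝ))) * gr U ^ (2 * j)
            = ((2 * j : ℝ) ^ (2 / 3 * (3 / 2 * (3 - α))) * (2 * j : ℝ) ^ (α - 3)) *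
              (Real.exp (-c * (2 * j : ℝ) ^ (2 / 3 : ℝ)) * gr U ^ (2 * j)) := by
              rw [e, one_mul, neg_mul]
          _ = _ := by ring
    have := tendsto_nhds_unique h3 hF
    linarith

/-- the smallest class closed under connected sums that contains the type of `w0` -/
def Gen (w0 : List Dir) (w : List Dir) : Prop := ∀ Q : List Dir → Prop, KClass Q → CSum Q →
  Q w0 → Q w

theorem gen_class (w0 : List Dir) : KClass (Gen w0) where
  same w w' h h' e hw Q hQ hc hq := hQ.same w w' h h' e (hw Q hQ hc hq)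
  rev w w' h h' e hw Q hQ hc hq := hQ.rev w w' h h' e (hw Q hQ hc hq)

theorem gen_csum (w0 : List Dir) : CSum (Gen w0) := fun l1 v l2 h h1 h2 Q hQ hc hq =>
  hc l1 v l2 h (h1 Q hQ hc hq) (h2 Q hQ hc hq)

theorem gen_self (w0 : List Dir) : Gen w0 w0 := fun _ _ _ hq => hq

end

end Pool.Agent.K6.H37.MS
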