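import Pool.Agent.K6.H37.MS.Cnt2
import Pool.Agent.K6.H37.MS.Cls
import Pool.Agent.K6.H37.KL.Cor

/-!
# Connected sums and the surface of unknotted polygons
-/

set_option autoImplicit false

namespace Pool.Agent.K6.H37.MS

open Finset Filter Topology KN
open scoped Classical

noncomputable section

/-- sequences of knots with bounded blocks -/
theorem base_w (L B : ℕ) : ∃ R κ M D n0 : ℕ, 1 ≤ κ ∧ 1 ≤ M ∧
    ∀ (ks : ℕ → List V) (v : ℕ → List Dir), (∀ i, NonInv (ks i)) → SmB L B v →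
      (∀ i, Same (vl (.zm :: v i)) (ks i)) → ∀ N : ℕ, 1 ≤ N → ∀ l : List V, Sums ks N l →
      ∃ m : ℕ, m ≤ D * N ∧ m % 2 = 0 ∧ ∀ n : ℕ, n0 ≤ n →
        ∑ w ∈ K U n, (sf R w - κ * N) ^ N ≤ (M * N) ^ N * a (KT l) (n + m) := by
  obtain ⟨R, hR, hLR⟩ := d_LL (2 * L + 4) L le_rfl
  obtain ⟨T, hT⟩ : ∃ T, T = 2 * L + 4 := ⟨_, rfl⟩
  rw [← hT] at hLR
  obtain ⟨κ, Q, hκ, hQ, h1⟩ := cnt_w (B := B) hLR
  obtain ⟨D, hD⟩ : ∃ D, D = B + 2 * T := ⟨_, rfl⟩
  have hD0 : 0 < D := by omega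
  refine ⟨R, κ, Q * (72 * D), D, D + 3, hκ, Nat.mul_pos hQ (by omega), ?_⟩
  intro ks v hk hv hvk N hN1 l hl
  obtain ⟨m, hm⟩ : ∃ m : ℕ, m = ((List.range N).map (fun i => (blk T (v i)).length - 1)).sum :=
    ⟨_, rfl⟩
  refine ⟨m, ?_, ?_, fun n hn => ?_⟩
  · rw [hm]
    have h2 := List.sum_le_card_nsmul ((List.range N).map (fun i => (blk T (v i)).length - 1)) D
      (by
        intro x hx
        obtain ⟨i, -, rfl⟩ := List.mem_map.1 hx
        have := K3YMUL.blk_le hv T i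
        omega)
    rw [List.length_map, List.length_range, smul_eq_mul] at h2
    rw [mul_comm]
    exact h2
  · rw [hm]
    apply K3YALL.sum_even
    intro x hx
    obtain ⟨i, -, rfl⟩ := List.mem_map.1 hx
    have hlen : (blk T (v i)).length = 2 * (T + 1) + (v i).length := by
      unfold blk
      simp only [List.length_append, List.length_replicate]
      omega
    have hodd : ((v i).length + 1) % 2 = 0 := by
      have h2 := even_of_closed ((hv i).1.1.2.1)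
      simpa using h2
    omega
  · have h2 := h1 v hv n N hN1
    have h3 : (VZ T L v N n).card ≤ (N * (2 * D) * 36) ^ N * a (KT l) (n + m) := by
      have h4 : (VZ T L v N n).card ≤
          (N * (2 * D) * 36) ^ N * ((VZ T L v N n).image (EZ T v)).card := by
        apply Finset.card_le_mul_card_image
        intro w _
        rw [hD]
        exact mul_u Y_mem_proof e_over ks hk hv hvk N n (by omega) w
      refine h4.trans (Nat.mul_le_mul_left _ ?_)
      unfold a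
      apply Finset.card_le_card
      intro w hw
      obtain ⟨W, hW, rfl⟩ := Finset.mem_image.1 hw
      obtain ⟨hW1, hW2, hW3⟩ := (Y_mem_proof T L v N n W).1 hW
      rw [mem_K]
      refine ⟨?_, hW3.ext, Or.inl ?_⟩
      · rw [(e_bas T L B v hv W).2.2.1, hW1, hm, (hW2.map _).sum_eq]
      · exact e_sumu ks N _ _ (e_type ks T L B v hv hvk N W hW2 hW3) hl
    calc _ ≤ Q ^ N * (VZ T L v N n).card := h2
      _ ≤ Q ^ N * ((N * (2 * D) * 36) ^ N * a (KT l) (n + m)) := Nat.mul_le_mul_left _ h3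
      _ = _ := by
        rw [← mul_assoc, ← mul_pow]
        congr 2
        ring

/-- finite families of knots -/
theorem fam_w {ι : Type} [Finite ι] (κ : ι → List V) (hκ : ∀ i, NCG (κ i))
    (hex : ∀ i, ∃ w, SAP w ∧ Same (vl w) (κ i)) : ∃ R k M D n0 : ℕ, 1 ≤ k ∧ 1 ≤ M ∧
    ∀ N : ℕ, 1 ≤ N → ∀ (s : ℕ → ι) (l : List V), Sums (fun i => κ (s i)) N l →
      ∃ m : ℕ, m ≤ D * N ∧ m % 2 = 0 ∧ ∀ n : ℕ, n0 ≤ n →
        ∑ w ∈ K U n, (sf R w - k * N) ^ N ≤ (M * N) ^ N * a (KT l) (n + m) := by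
  have := Fintype.ofFinite ι
  choose L v hv hvk using fun i => T_vex_proof _ (hex i)
  obtain ⟨R, k, M, D, n0, hk, hM, h⟩ := base_w (univ.sup L)
    (univ.sup (fun i => (blk 0 (v i)).length))
  refine ⟨R, k, M, D, n0, hk, hM, ?_⟩
  intro N hN1 s l hl
  refine h (fun i => κ (s i)) (fun i => v (s i)) (fun i => ncg_ninv _ (hκ _)) ?_
    (fun i => hvk _) N hN1 l hl
  intro i
  exact ⟨K3YALL.SmR_mono (Finset.le_sup (f := L) (Finset.mem_univ _)) (hv _),
    Finset.le_sup (f := fun i => (blk 0 (v i)).length) (Finset.mem_univ _)⟩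

variable {Q : List Dir → Prop}

theorem aQ_le (hQ : KClass Q) (hne : ∃ w, SAP w ∧ Q w) (hc : CSum Q) : ∃ C : ℝ, 0 < C ∧
    ∀ n : ℕ, 1 ≤ n → (a Q n : ℝ) ≤ C * n * gr Q ^ n := by
  obtain ⟨C0, hC0⟩ := (KN.KQ.class_all hQ hc hne).1
  obtain ⟨g1, -, g2⟩ := gr_bounds Q hQ hne
  have hg : 0 < gr Q := by linarith
  refine ⟨2 * (|C0| + 1), by positivity, fun n hn => ?_⟩
  have hn0 : (1 : ℝ) ≤ n := by exact_mod_cast hn
  have h1 := hC0 n hn
  have h2 : (n : ℝ) ^ (-(2 / 3) : ℝ) ≤ 1 :=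
    Real.rpow_le_one_of_one_le_of_nonpos hn0 (by norm_num)
  have h3 : pq Q n ≤ (|C0| + 1) * gr Q ^ n := by
    refine h1.trans (mul_le_mul_of_nonneg_right ?_ (by positivity))
    calc C0 * (n : ℝ) ^ (-(2 / 3) : ℝ) ≤ |C0| * (n : ℝ) ^ (-(2 / 3) : ℝ) :=
          mul_le_mul_of_nonneg_right (le_abs_self _) (by positivity)
      _ ≤ |C0| * 1 := mul_le_mul_of_nonneg_left h2 (abs_nonneg _)
      _ ≤ |C0| + 1 := by linarith
  have h4 : (a Q n : ℝ) = pq Q n * (2 * n) := by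
    unfold pq
    field_simp
  rw [h4]
  calc pq Q n * (2 * n) ≤ (|C0| + 1) * gr Q ^ n * (2 * n) :=
        mul_le_mul_of_nonneg_right h3 (by positivity)
    _ = _ := by ring

/-- unknots with a large surface -/
theorem class_tail (hQ : KClass Q) (hc : CSum Q) {w0 : List Dir} (h0 : SAP w0) (hq : Q w0)
    (hn : NCG (vl w0)) : ∃ (R Z : ℕ) (C : ℝ), 1 ≤ Z ∧ 0 < C ∧ ∀ᶠ j : ℕ in atTop, ∀ y : ℕ,
      (((K U (2 * j)).filter (fun w => y ≤ sf R w)).card : ℝ) ≤
        C * (2 * j) * Real.exp (-(y / Z : ℝ)) * gr Q ^ (2 * j) := by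
  obtain ⟨R, κ, M, D, n0, hκ, hM, hf⟩ := fam_w (ι := Unit) (fun _ => vl w0) (fun _ => hn)
    (fun _ => ⟨w0, h0, Same.refl _⟩)
  obtain ⟨g1, -, g2⟩ := gr_bounds Q hQ ⟨w0, h0, hq⟩
  obtain ⟨g, hg⟩ : ∃ g, g = gr Q := ⟨_, rfl⟩
  rw [← hg] at g1
  have hg1 : 1 ≤ g := by linarith
  have hg0 : 0 < g := by linarith
  obtain ⟨C1, hC1, hC⟩ := aQ_le hQ ⟨w0, h0, hq⟩ hc
  obtain ⟨c2, hc2, hup⟩ := class_upper hQ hc h0 hq hn
  rw [← hg] at hC hup ⊢
  obtain ⟨Z', hZ'⟩ : ∃ Z' : ℕ, Z' = ⌈(M : ℝ) * (Real.exp 1 * g ^ D)⌉₊ := ⟨_, rfl⟩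
  have hZ1 : (M : ℝ) * (Real.exp 1 * g ^ D) ≤ Z' := by rw [hZ']; exact Nat.le_ceil _
  obtain ⟨E, hE⟩ : ∃ E : ℕ, E = (2 * R + 3) ^ 3 := ⟨_, rfl⟩
  have he : (0 : ℝ) < Real.exp 1 := Real.exp_pos 1
  refine ⟨R, κ + Z', Real.exp 1 * (C1 * (1 + D * E) + 2), by omega, by positivity, ?_⟩
  filter_upwards [hup, eventually_ge_atTop (n0 + 1)] with j h1 h2
  intro y
  have hj0 : (1 : ℝ) ≤ j := by exact_mod_cast (by omega : 1 ≤ j)
  have hZr : (0 : ℝ) < ((κ + Z' : ℕ) : ℝ) := by exact_mod_cast (by omega : 0 < κ + Z')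
  obtain ⟨A, hA⟩ : ∃ A, A = (K U (2 * j)).filter (fun w => y ≤ sf R w) := ⟨_, rfl⟩
  rw [← hA]
  obtain ⟨N, hN⟩ : ∃ N, N = y / (κ + Z') := ⟨_, rfl⟩
  have hyN : (y : ℝ) / ((κ + Z' : ℕ) : ℝ) - 1 ≤ N := by
    have h3 : y < (N + 1) * (κ + Z') := by
      rw [hN, mul_comm]
      exact Nat.lt_mul_div_succ _ (by omega)
    have h4 : (y : ℝ) < (N + 1) * ((κ + Z' : ℕ) : ℝ) := by exact_mod_cast h3
    rw [← div_lt_iff₀ hZr] at h4
    linarith
  have hexp : Real.exp (-(N : ℝ)) ≤ Real.exp 1 * Real.exp (-((y : ℝ) / ((κ + Z' : ℕ) : ℝ))) := by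
    rw [← Real.exp_add]
    apply Real.exp_le_exp.2
    linarith
  rcases Nat.eq_zero_or_pos N with hN0 | hN1
  · -- small `y`
    have h3 : (A.card : ℝ) ≤ a U (2 * j) := by
      rw [hA]
      unfold a
      exact_mod_cast card_filter_le _ _
    have h4 : (a U (2 * j) : ℝ) ≤ 2 * (2 * j) * g ^ (2 * j) := by
      rw [GEN.a_eq U j (by omega)]
      have h5 : pq U (2 * j) ≤ 1 * g ^ (2 * j) := by
        refine h1.trans (mul_le_mul_of_nonneg_right ?_ (by positivity))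
        rw [Real.exp_le_one_iff]
        have : 0 ≤ c2 * (2 * j : ℝ) ^ (2 / 3 : ℝ) := by positivity
        linarith
      rw [one_mul] at h5
      calc pq U (2 * j) * (2 * (2 * j)) ≤ g ^ (2 * j) * (2 * (2 * j)) :=
            mul_le_mul_of_nonneg_right h5 (by positivity)
        _ = _ := by ring
    rw [hN0] at hexp
    simp only [Nat.cast_zero, neg_zero, Real.exp_zero] at hexp
    calc (A.card : ℝ) ≤ 2 * (2 * j) * g ^ (2 * j) := h3.trans h4
      _ = 1 * (2 * (2 * j) * g ^ (2 * j)) := (one_mul _).symm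
      _ ≤ (Real.exp 1 * Real.exp (-((y : ℝ) / ((κ + Z' : ℕ) : ℝ)))) *
          (2 * (2 * j) * g ^ (2 * j)) :=
          mul_le_mul_of_nonneg_right hexp (by positivity)
      _ = Real.exp 1 * 2 * (2 * j) * Real.exp (-((y : ℝ) / ((κ + Z' : ℕ) : ℝ))) *
          g ^ (2 * j) := by ring
      _ ≤ Real.exp 1 * (C1 * (1 + D * E) + 2) * (2 * j) *
          Real.exp (-((y : ℝ) / ((κ + Z' : ℕ) : ℝ))) * g ^ (2 * j) := by
          have : (0 : ℝ) ≤ C1 * (1 + D * E) := by positivity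
          gcongr
          linarith
  · -- large `y`
    rcases A.eq_empty_or_nonempty with hAe | ⟨w1, hw1⟩
    · rw [hAe, card_empty, Nat.cast_zero]
      positivity
    have hNr : (0 : ℝ) < N := by exact_mod_cast hN1
    have hyE : y ≤ E * (2 * j) := by
      rw [hA, mem_filter, mem_K] at hw1
      obtain ⟨⟨e1, e2, -⟩, e3⟩ := hw1
      refine e3.trans ?_
      rw [hE, ← e1]
      exact sf_upper R e2
    obtain ⟨w, hw, hs⟩ := e_sume (fun _ => vl w0) N (fun _ _ => ⟨w0, h0, Same.refl _⟩)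
    obtain ⟨m, hm1, -, hm3⟩ := hf N hN1 (fun _ => ()) (vl w) hs
    have hQw : Q w := by
      obtain ⟨N', rfl⟩ : ∃ N', N = N' + 1 := ⟨N - 1, by omega⟩
      exact sums_mem hQ hc h0 hq N' _ hs w hw (Same.refl _)
    have h3 := hm3 (2 * j) (by omega)
    have h4 : A.card * (Z' * N) ^ N ≤ ∑ w ∈ K U (2 * j), (sf R w - κ * N) ^ N := by
      calc A.card * (Z' * N) ^ N ≤ ∑ w ∈ A, (sf R w - κ * N) ^ N := by
            rw [← smul_eq_mul]
            refine Finset.card_nsmul_le_sum _ _ _ fun w hw => ?_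
            rw [hA, mem_filter] at hw
            refine Nat.pow_le_pow_left ?_ N
            have h5 : (κ + Z') * N ≤ y := by
              rw [hN]
              exact Nat.mul_div_le _ _
            have h6 : (κ + Z') * N = κ * N + Z' * N := by ring
            have := hw.2
            omega
        _ ≤ _ := by
            rw [hA]
            exact Finset.sum_le_sum_of_subset (filter_subset _ _)
    have h5 : a (KT (vl w)) (2 * j + m) ≤ a Q (2 * j + m) := by
      unfold a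
      refine card_le_card fun w' hw' => ?_
      rw [mem_K] at hw' ⊢
      exact ⟨hw'.1, hw'.2.1, kt_sub hQ hw hQw w' hw'.2.1 hw'.2.2⟩
    have h6 : (A.card : ℝ) * (Z' * N) ^ N ≤ (M * N) ^ N * a Q (2 * j + m) := by
      have := h4.trans (h3.trans (Nat.mul_le_mul_left _ h5))
      exact_mod_cast this
    have h7 : ((M : ℝ) * N) ^ N * (Real.exp 1 * g ^ D) ^ N ≤ (Z' * N) ^ N := by
      rw [← mul_pow]
      apply pow_le_pow_left₀ (by positivity)
      calc (M : ℝ) * N * (Real.exp 1 * g ^ D) = M * (Real.exp 1 * g ^ D) * N := by ring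
        _ ≤ Z' * N := mul_le_mul_of_nonneg_right hZ1 hNr.le
    have hMr : (0 : ℝ) < M := by exact_mod_cast hM
    have h8 : (A.card : ℝ) * (Real.exp 1 * g ^ D) ^ N ≤ a Q (2 * j + m) := by
      have h9 := (mul_le_mul_of_nonneg_left h7 (Nat.cast_nonneg A.card)).trans h6
      have h10 : 0 < ((M : ℝ) * N) ^ N := by positivity
      rw [← mul_assoc, mul_comm (A.card : ℝ), mul_assoc] at h9
      exact le_of_mul_le_mul_left h9 h10
    have h11 : (a Q (2 * j + m) : ℝ) ≤ C1 * (1 + D * E) * (2 * j) * (g ^ (2 * j) * (g ^ D) ^ N) := by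
      have hmE : m ≤ D * E * (2 * j) := by
        calc m ≤ D * N := hm1
          _ ≤ D * (E * (2 * j)) := by
              refine Nat.mul_le_mul_left _ (le_trans ?_ hyE)
              rw [hN]
              exact Nat.div_le_self _ _
          _ = _ := by ring
      have hmEr : (m : ℝ) ≤ D * E * (2 * j) := by exact_mod_cast hmE
      have h12 := hC (2 * j + m) (by omega)
      push_cast at h12
      have h13 : g ^ (2 * j + m) ≤ g ^ (2 * j) * (g ^ D) ^ N := by
        rw [pow_add, ← pow_mul]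
        exact mul_le_mul_of_nonneg_left (pow_le_pow_right₀ hg1 hm1) (by positivity)
      calc (a Q (2 * j + m) : ℝ) ≤ C1 * (2 * j + m) * g ^ (2 * j + m) := h12
        _ ≤ C1 * (2 * j + D * E * (2 * j)) * (g ^ (2 * j) * (g ^ D) ^ N) := by gcongr
        _ = _ := by ring
    have h14 : (A.card : ℝ) * Real.exp 1 ^ N ≤ C1 * (1 + D * E) * (2 * j) * g ^ (2 * j) := by
      have h15 := h8.trans h11
      have h16 : (0 : ℝ) < (g ^ D) ^ N := by positivity
      rw [mul_pow, ← mul_assoc, ← mul_assoc] at h15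
      exact le_of_mul_le_mul_right h15 h16
    have h17 : (A.card : ℝ) ≤ C1 * (1 + D * E) * (2 * j) * g ^ (2 * j) * Real.exp (-(N : ℝ)) := by
      rw [Real.exp_neg, ← div_eq_mul_inv, le_div_iff₀ (Real.exp_pos _)]
      have e : Real.exp (N : ℝ) = Real.exp 1 ^ N := by
        rw [← Real.exp_nat_mul, mul_one]
      rw [e]
      exact h14
    calc (A.card : ℝ) ≤ C1 * (1 + D * E) * (2 * j) * g ^ (2 * j) * Real.exp (-(N : ℝ)) := h17
      _ ≤ C1 * (1 + D * E) * (2 * j) * g ^ (2 * j) *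
          (Real.exp 1 * Real.exp (-((y : ℝ) / ((κ + Z' : ℕ) : ℝ)))) :=
          mul_le_mul_of_nonneg_left hexp (by positivity)
      _ = Real.exp 1 * (C1 * (1 + D * E)) * (2 * j) *
          Real.exp (-((y : ℝ) / ((κ + Z' : ℕ) : ℝ))) * g ^ (2 * j) := by ring
      _ ≤ _ := by
          gcongr
          linarith

end

end Pool.Agent.K6.H37.MS
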