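import Pool.Agent.K6.H37.MS.Surf
import Pool.Agent.K6.H37.MS.Mul

/-!
# Counting words with blocks, weighted by the surface
-/

set_option autoImplicit false

namespace Pool.Agent.K6.H37.MS

open Finset Filter Topology KN KN.K3YCNT
open scoped Classical

noncomputable section

/-- the counting, restricted to subsets -/
theorem count_r (T L : ℕ) (v : ℕ → List Dir) (N n : ℕ)
    (C : List Sz → Finset Z3) (S S' : Finset (List Sz)) (hS : S ⊆ VZ T L v N n)
    (h : ∀ W ∈ S, ∀ x ∈ C W, ∃ (d f : Dir) (A B : List Sz), perp d f ∧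
      VaZ T L v (A ++ .bl N .xp .zp :: B) ∧ near 6 (pos (EZ T v B)) (Rp d f x) ∧
      RlZ W d f A B)
    (hS' : ∀ W ∈ S, ∀ (d f : Dir) (A B : List Sz), perp d f → RlZ W d f A B →
      A ++ .bl N .xp .zp :: B ∈ VZ T L v (N + 1) n → A ++ .bl N .xp .zp :: B ∈ S') :
    ∑ W ∈ S, (C W).card ≤ S'.card * (6 * (6 * (3 * 13 ^ 3))) := by
  have hmem := Y_mem_proof
  have hrtc := T_rtc_proof
  rw [← Finset.card_sigma]
  have hcard : (S' ×ˢ ((univ : Finset Dir) ×ˢ
      ((univ : Finset Dir) ×ˢ ((univ : Finset (Fin 3)) ×ˢ box 6 0)))).card =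
      S'.card * (6 * (6 * (3 * 13 ^ 3))) := by
    rw [card_product, card_product, card_product, card_product, card_box,
      card_univ, card_univ]
    have e1 : Fintype.card Dir = 6 := rfl
    have e2 : Fintype.card (Fin 3) = 3 := rfl
    rw [e1, e2]
  rw [← hcard]
  apply Finset.card_le_card_of_forall_subsingleton
    (fun (p : (_ : List Sz) × Z3) (q : List Sz × Dir × Dir × Fin 3 × Z3) =>
      ∃ A B : List Sz, perp q.2.1 q.2.2.1 ∧ q.1 = A ++ .bl N .xp .zp :: B ∧ N ∉ lab A ∧
        Ra q.2.2.2.1 p.1 q.2.1 q.2.2.1 A B ∧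
        q.2.2.2.2 = Rp q.2.1 q.2.2.1 p.2 - pos (EZ T v B))
  · rintro ⟨W, x⟩ hp
    rw [mem_sigma] at hp
    obtain ⟨hW, hx⟩ := hp
    simp only at hW hx
    obtain ⟨d, f, A, B, h1, h2, h3, h4⟩ := h W hW x hx
    have hWS := hW
    obtain ⟨i, hi⟩ := exists_Ra h4
    obtain ⟨k1, k2⟩ := Ra_lab hi
    replace hW := hS hW
    rw [hmem] at hW
    have hN : N ∉ lab A ++ lab B := by
      rw [k1]
      intro hN
      have := hW.2.1.mem_iff.1 hN
      exact absurd this (by simp)
    refine ⟨(A ++ .bl N .xp .zp :: B, d, f, i, Rp d f x - pos (EZ T v B)), ?_, A, B, h1, rfl,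
      fun hA => hN (List.mem_append_left _ hA), hi, rfl⟩
    simp only [mem_product, mem_univ, true_and]
    refine ⟨?_, ?_⟩
    · apply hS' W hWS d f A B h1 h4
      rw [hmem, k2 N]
      refine ⟨hW.1, ?_, h2⟩
      rw [lab_append, lab_cons_bl]
      refine List.perm_middle.trans ?_
      rw [k1, List.range_succ]
      refine (hW.2.1.cons N).trans ?_
      exact (List.perm_append_singleton N (List.range N)).symm
    · rw [mem_box]
      unfold near at h3 ⊢
      obtain ⟨h5, h6, h7⟩ := h3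
      rw [abs_sub_comm] at h5 h6 h7
      refine ⟨?_, ?_, ?_⟩
      · simpa using h5
      · simpa using h6
      · simpa using h7
  · rintro ⟨W', d, f, i, y⟩ _ ⟨W₁, x₁⟩ h1 ⟨W₂, x₂⟩ h2
    simp only [Set.mem_ofPred_eq] at h1 h2
    obtain ⟨-, A, B, hp, e1, e2, e3, e4⟩ := h1
    obtain ⟨-, A', B', -, e1', e2', e3', e4'⟩ := h2
    rw [e1] at e1'
    obtain ⟨rfl, rfl⟩ := split_unique N A A' B B' _ _ _ _ e2 e2' e1'
    have hW : W₁ = W₂ := (List.map_injective_iff.2 (rZ_inj hrtc hp)) (Ra_unique e3 e3')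
    have hx : x₁ = x₂ := by
      rw [e4] at e4'
      exact Rp_inj hrtc hp (sub_left_injective e4')
    subst hW hx
    rfl

/-- sums by layers -/
theorem layer {α : Type} [DecidableEq α] (S : Finset α) (g h : α → ℕ) (K : ℕ)
    (hK : ∀ x ∈ S, h x ≤ K) :
    ∑ x ∈ S, g x * h x = ∑ k ∈ range K, ∑ x ∈ S.filter (fun x => k < h x), g x := by
  have : ∀ k ∈ range K, ∑ x ∈ S.filter (fun x => k < h x), g x =
      ∑ x ∈ S, if k < h x then g x else 0 := by
    intro k _
    rw [Finset.sum_filter]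
  rw [Finset.sum_congr rfl this, Finset.sum_comm]
  refine Finset.sum_congr rfl fun x hx => ?_
  rw [← Finset.sum_filter, Finset.sum_const, smul_eq_mul, mul_comm]
  congr 1
  have e : (range K).filter (fun k => k < h x) = range (h x) := by
    ext k
    rw [mem_filter, mem_range, mem_range]
    have := hK x hx
    omega
  rw [e, card_range]

/-- the weighted counting -/
theorem count_w (T L : ℕ) (v : ℕ → List Dir) (N n : ℕ)
    (C : List Sz → Finset Z3) (g g' : List Sz → ℕ)
    (h : ∀ W ∈ VZ T L v N n, ∀ x ∈ C W, ∃ (d f : Dir) (A B : List Sz), perp d f ∧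
      VaZ T L v (A ++ .bl N .xp .zp :: B) ∧ near 6 (pos (EZ T v B)) (Rp d f x) ∧
      RlZ W d f A B)
    (hg : ∀ W ∈ VZ T L v N n, ∀ (d f : Dir) (A B : List Sz), perp d f → RlZ W d f A B →
      g W ≤ g' (A ++ .bl N .xp .zp :: B)) :
    ∑ W ∈ VZ T L v N n, (C W).card * g W ≤
      (6 * (6 * (3 * 13 ^ 3))) * ∑ W ∈ VZ T L v (N + 1) n, g' W := by
  obtain ⟨K, hK1, hK2⟩ : ∃ K, (∀ W ∈ VZ T L v N n, g W ≤ K) ∧
      ∀ W ∈ VZ T L v (N + 1) n, g' W ≤ K := by
    refine ⟨(VZ T L v N n).sup g + (VZ T L v (N + 1) n).sup g', fun W hW => ?_, fun W hW => ?_⟩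
    · exact (Finset.le_sup (f := g) hW).trans (Nat.le_add_right _ _)
    · exact (Finset.le_sup (f := g') hW).trans (Nat.le_add_left _ _)
  rw [layer _ (fun W => (C W).card) g K hK1]
  have e := layer (VZ T L v (N + 1) n) (fun _ => 1) g' K hK2
  simp only [one_mul, Finset.sum_const, smul_eq_mul, mul_one] at e
  rw [e, Finset.mul_sum]
  refine Finset.sum_le_sum fun k _ => ?_
  rw [mul_comm]
  refine count_r T L v N n C _ _ (filter_subset _ _) ?_ ?_
  · intro W hW
    exact h W (mem_filter.1 hW).1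
  · intro W hW d f A B hp hR hm
    rw [mem_filter] at hW ⊢
    exact ⟨hm, lt_of_lt_of_le hW.2 (hg W hW.1 d f A B hp hR)⟩

theorem BZ_map (d f : Dir) (W : List Sz) : BZ (W.map (rZ d f)) = (BZ W).map (rt d f) := by
  unfold BZ
  rw [List.map_map, List.map_map]
  apply List.map_congr_left
  intro s _
  cases s <;> rfl

theorem BZ_append (A B : List Sz) : BZ (A ++ B) = BZ A ++ BZ B := by
  unfold BZ
  rw [List.map_append]

/-- the surface changes little -/
theorem sf_rel (R N : ℕ) {W : List Sz} {d f : Dir} {A B : List Sz} (hp : perp d f)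
    (h : RlZ W d f A B) :
    sf R (BZ W) ≤ sf R (BZ (A ++ .bl N .xp .zp :: B)) + 2 * (2 * R + 3) ^ 3 := by
  rw [← sf_rot R (BZ W) hp, ← BZ_map]
  have e0 : BZ (A ++ .bl N .xp .zp :: B) = BZ A ++ .zp :: BZ B := by
    rw [BZ_append]; rfl
  rw [e0]
  rcases h with h | ⟨M, rfl, h⟩ | ⟨M, rfl, h⟩
  · rw [h, BZ_append]
    exact Nat.le_add_right _ _
  · rw [h, BZ_append, BZ_append]
    have e1 : BZ (.lt .zp :: .lt .xm :: B) = .zp :: .xm :: BZ B := rfl
    have e2 : BZ M ++ BZ [.lt .xm] ++ .zp :: BZ B = BZ M ++ .xm :: .zp :: BZ B := by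
      rw [List.append_assoc]; rfl
    rw [e1, e2]
    exact sf_swap R _ _ _ _
  · rw [h, BZ_append]
    have e1 : BZ (.lt .xp :: .lt .zp :: M) = .xp :: .zp :: BZ M := rfl
    have e2 : BZ (.lt .xp :: M) = .xp :: BZ M := rfl
    rw [e1, e2]
    exact sf_swap R _ _ _ _

/-- words without blocks -/
theorem zero_sum (T L : ℕ) (v : ℕ → List Dir) (n : ℕ) (f : List Dir → ℕ) :
    ∑ w ∈ K U n, f w = ∑ W ∈ VZ T L v 0 n, f (BZ W) := by
  refine Finset.sum_bij (fun w _ => w.map Sz.lt) ?_ ?_ ?_ ?_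
  · intro w hw
    obtain ⟨h1, h2, h3⟩ := mem_K.1 hw
    refine (Y_mem_proof T L v 0 n _).2
      ⟨by rw [List.length_map, h1], by rw [K3YZERO.lab_map]; rfl, ?_⟩
    refine ⟨?_, ?_, ?_, ?_⟩
    · rw [K3YZERO.BZ_map]; exact h3
    · rw [K3YZERO.BZ_map]; exact h2
    · rw [K3YZERO.EZ_map]; exact h2
    · intro A B i d f h
      exfalso
      have h4 : lab (w.map Sz.lt) = [] := K3YZERO.lab_map w
      rw [h] at h4
      unfold lab at h4
      rw [List.filterMap_eq_nil_iff] at h4
      have := h4 (.bl i d f) (by simp)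
      simp at this
  · intro w1 _ w2 _ h
    have h1 := congrArg BZ h
    rwa [K3YZERO.BZ_map, K3YZERO.BZ_map] at h1
  · intro W hW
    obtain ⟨h1, h2, h3⟩ := (Y_mem_proof T L v 0 n W).1 hW
    have h4 : lab W = [] := List.perm_nil.1 h2
    refine ⟨BZ W, mem_K.2 ⟨?_, h3.base, h3.u⟩, K3YZERO.map_BZ W h4⟩
    unfold BZ
    rw [List.length_map]
    exact h1
  · intro w hw
    rw [K3YZERO.BZ_map]

/-- the induction -/
theorem cnt_w {T L B R : ℕ} (hLL : LLat T L R) : ∃ κ Q : ℕ, 1 ≤ κ ∧ 1 ≤ Q ∧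
    ∀ v : ℕ → List Dir, SmB L B v → ∀ n N : ℕ, 1 ≤ N →
      ∑ w ∈ K U n, (sf R w - κ * N) ^ N ≤ Q ^ N * (VZ T L v N n).card := by
  obtain ⟨E, hE⟩ : ∃ E, E = (2 * R + 3) ^ 3 := ⟨_, rfl⟩
  obtain ⟨D, hD⟩ : ∃ D, D = B + 2 * T := ⟨_, rfl⟩
  obtain ⟨r, hr⟩ : ∃ r, r = raZ T L B := ⟨_, rfl⟩
  obtain ⟨b, hb⟩ : ∃ b, b = (2 * r + 1) ^ 3 := ⟨_, rfl⟩
  obtain ⟨M, hM⟩ : ∃ M, M = b + 2197 + D + 2 := ⟨_, rfl⟩
  obtain ⟨Q, hQ⟩ : ∃ Q : ℕ, Q = (6 * (6 * (3 * 13 ^ 3))) := ⟨_, rfl⟩
  have hE1 : 1 ≤ E := by rw [hE]; exact Nat.one_le_pow _ _ (by omega)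
  refine ⟨E * M, E * Q, ?_, ?_, ?_⟩
  · exact Nat.mul_pos hE1 (by omega)
  · exact Nat.mul_pos hE1 (by omega)
  intro v hv n N hN
  have hC : ∀ W : List Sz, ∃ C : Finset Z3, ∀ i, i < N → W ∈ VZ T L v i n →
      (sf R (BZ W) + 2 * E * i ≤ E * C.card + E * M * N ∧ ∀ x ∈ C, ¬ near 6 x 0 ∧
        (∃ N, Cont R {p | p ∈ path (EZ T v W)} x N) ∧ faZ T v r W x) := by
    intro W
    obtain ⟨C0, hC1, hC2⟩ := sf_contacts R (EZ T v W)
    refine ⟨C0.filter (fun x => faZ T v r W x), fun i hi hW => ?_⟩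
    obtain ⟨hW1, hW2, hW3⟩ := (Y_mem_proof T L v i n W).1 hW
    refine ⟨?_, ?_⟩
    · have hbad : (C0.filter (fun x => ¬ faZ T v r W x)).card ≤ i * b := by
        have hsub : C0.filter (fun x => ¬ faZ T v r W x) ⊆
            (bps T v W).toFinset.biUnion (fun q => box r q) := by
          intro x hx
          rw [mem_filter] at hx
          obtain ⟨-, hx⟩ := hx
          unfold faZ at hx
          push Not at hx
          obtain ⟨A, B', i, d, f, hAB, hx⟩ := hx
          rw [mem_biUnion]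
          refine ⟨pos (EZ T v B'), ?_, mem_box.2 hx⟩
          rw [List.mem_toFinset, hAB]
          exact mem_bps T v A B' i d f
        refine (card_le_card hsub).trans ?_
        refine (card_biUnion_le_card_mul _ _ b (fun q _ => by rw [card_box, hb])).trans
          ?_
        apply Nat.mul_le_mul_right
        refine (List.toFinset_card_le _).trans ?_
        rw [bps_length, hW2.length_eq, List.length_range]
      have hsum := card_filter_add_card_filter_not (s := C0) (fun x => faZ T v r W x)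
      have hl := sf_longer R hW3.base hW3.ext (e_bas T L B v hv W).2.1
      have hlen : (EZ T v W).length - (BZ W).length ≤ D * i := by
        have h1 := (e_bas T L B v hv W).2.2.1
        have h2 : (BZ W).length = W.length := by unfold BZ; rw [List.length_map]
        have h3 : ((lab W).map (fun i => (blk T (v i)).length - 1)).sum ≤ D * i := by
          rw [(hW2.map _).sum_eq]
          have h4 := List.sum_le_card_nsmul
            ((List.range i).map (fun i => (blk T (v i)).length - 1)) D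
            (by
              intro x hx
              obtain ⟨i, -, rfl⟩ := List.mem_map.1 hx
              have := K3YMUL.blk_le hv T i
              omega)
          rw [List.length_map, List.length_range, smul_eq_mul] at h4
          rw [mul_comm]
          exact h4
        omega
      rw [← hE] at hl hC1
      have h5 : C0.card ≤ (C0.filter (fun x => faZ T v r W x)).card + i * b := by omega
      have h6 : i ≤ N := hi.le
      calc sf R (BZ W) + 2 * E * i
          ≤ (E * (((C0.filter (fun x => faZ T v r W x)).card + i * b) + 2197) + E * (D * i)) +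
              2 * E * i := by
            apply Nat.add_le_add_right
            refine hl.trans (Nat.add_le_add (hC1.trans ?_) (Nat.mul_le_mul_left _ hlen))
            exact Nat.mul_le_mul_left _ (by omega)
        _ = E * (C0.filter (fun x => faZ T v r W x)).card +
              E * (b * i + 2197 * 1 + D * i + 2 * i) := by ring
        _ ≤ E * (C0.filter (fun x => faZ T v r W x)).card +
              E * (b * N + 2197 * N + D * N + 2 * N) := by gcongr
        _ = _ := by rw [hM]; ring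
    · intro x hx
      rw [mem_filter] at hx
      exact ⟨(hC2 x hx.1).1, (hC2 x hx.1).2, hx.2⟩
  choose C hC using hC
  have key : ∀ j i : ℕ, i + j = N →
      ∑ W ∈ VZ T L v i n, (sf R (BZ W) + 2 * E * i - E * M * N) ^ j ≤
        (E * Q) ^ j * (VZ T L v N n).card := by
    intro j
    induction j with
    | zero =>
      intro i hi
      obtain rfl : i = N := by omega
      simp
    | succ j ih =>
      intro i hi
      have h1 : ∑ W ∈ VZ T L v i n, (sf R (BZ W) + 2 * E * i - E * M * N) ^ (j + 1) ≤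
          E * ∑ W ∈ VZ T L v i n,
            (C W).card * (sf R (BZ W) + 2 * E * i - E * M * N) ^ j := by
        rw [Finset.mul_sum]
        refine Finset.sum_le_sum fun W hW => ?_
        have h2 := (hC W i (by omega) hW).1
        rw [pow_succ, mul_comm, ← mul_assoc]
        exact Nat.mul_le_mul_right _ (by omega)
      have h2 := count_w T L v i n C
        (fun W => (sf R (BZ W) + 2 * E * i - E * M * N) ^ j)
        (fun W => (sf R (BZ W) + 2 * E * (i + 1) - E * M * N) ^ j) (by
          intro W hW x hx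
          obtain ⟨h4, ⟨N', h5⟩, h6⟩ := (hC W i (by omega) hW).2 x hx
          rw [hr] at h6
          exact e_con T L B R v hv hLL W ((Y_mem_proof _ _ _ _ _ _).1 hW).2.2 x N' h5 h4 h6 i)
        (by
          intro W hW d f A B' hp hR
          have h3 := sf_rel R i hp hR
          rw [← hE] at h3
          have h4 : 2 * E * (i + 1) = 2 * E * i + 2 * E := by ring
          exact Nat.pow_le_pow_left (by omega) j)
      rw [← hQ] at h2
      calc _ ≤ _ := h1
        _ ≤ E * (Q * ∑ W ∈ VZ T L v (i + 1) n,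
            (sf R (BZ W) + 2 * E * (i + 1) - E * M * N) ^ j) := Nat.mul_le_mul_left _ h2
        _ ≤ E * (Q * ((E * Q) ^ j * (VZ T L v N n).card)) :=
            Nat.mul_le_mul_left _ (Nat.mul_le_mul_left _ (ih (i + 1) (by omega)))
        _ = _ := by ring
  have h0 := key N 0 (by omega)
  rw [zero_sum T L v n (fun w => (sf R w - E * M * N) ^ N)]
  simpa using h0

end

end Pool.Agent.K6.H37.MS
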