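import Pool.Agent.K6.H37.MS.All2

/-!
# Exponential moments of the surface of unknotted polygons
-/

set_option autoImplicit false

namespace Pool.Agent.K6.H37.MS

open Finset Filter Topology KN
open scoped Classical

noncomputable section

variable {Q : List Dir → Prop}

/-- **exponential moments** -/
theorem class_exp (hQ : KClass Q) (hc : CSum Q) {w0 : List Dir} (h0 : SAP w0) (hq : Q w0)
    (hn : NCG (vl w0)) : ∃ (R : ℕ) (c : ℝ), 0 < c ∧ ∀ᶠ j : ℕ in atTop,
      ∑ w ∈ K U (2 * j), Real.exp (c * sf R w) ≤ gr Q ^ (2 * j) := by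
  obtain ⟨R, Z, C, hZ, hC, h⟩ := class_tail hQ hc h0 hq hn
  obtain ⟨g1, -, g2⟩ := gr_bounds Q hQ ⟨w0, h0, hq⟩
  have hg : 0 < gr Q := by linarith
  obtain ⟨E, hE⟩ : ∃ E : ℕ, E = (2 * R + 3) ^ 3 := ⟨_, rfl⟩
  have hZr : (0 : ℝ) < Z := by exact_mod_cast (by omega : 0 < Z)
  obtain ⟨c, hcc⟩ : ∃ c : ℝ, c = 1 / (4 * Z) := ⟨_, rfl⟩
  have hc0 : 0 < c := by rw [hcc]; positivity
  refine ⟨R, c, hc0, ?_⟩
  -- a polynomial is smaller than the exponential
  have h1 : Tendsto (fun x : ℝ => x ^ (3 : ℝ) * Real.exp (-c * x)) atTop (𝓝 0) :=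
    tendsto_rpow_mul_exp_neg_mul_atTop_nhds_zero _ _ hc0
  have h2 := (h1.comp lim_x).const_mul ((E + 1) * C)
  rw [mul_zero] at h2
  filter_upwards [h, h2.eventually_lt_const one_pos, eventually_ge_atTop 1] with j h3 h4 h5
  have hj0 : (1 : ℝ) ≤ j := by exact_mod_cast h5
  have hj2 : (0 : ℝ) < 2 * j := by linarith
  simp only [Function.comp] at h4
  have e1 : ((2 * j : ℝ) ^ (2 / 3 : ℝ)) ^ (3 : ℝ) = (2 * j) ^ 2 := by
    rw [← Real.rpow_mul hj2.le]
    norm_num
  rw [e1] at h4
  obtain ⟨X, hX⟩ : ∃ X : ℝ, X = (2 * j : ℝ) ^ (2 / 3 : ℝ) := ⟨_, rfl⟩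
  rw [← hX] at h4
  -- the sum with a larger exponent
  have h6 : ∑ w ∈ K U (2 * j), Real.exp (2 * c * sf R w) ≤
      (E + 1) * C * (2 * j) ^ 2 * gr Q ^ (2 * j) := by
    have hmaps : ∀ w ∈ K U (2 * j), sf R w ∈ range (E * (2 * j) + 1) := by
      intro w hw
      obtain ⟨e1, e2, -⟩ := mem_K.1 hw
      rw [mem_range, hE, ← e1]
      exact Nat.lt_succ_of_le (sf_upper R e2)
    rw [← Finset.sum_fiberwise_of_maps_to hmaps]
    calc ∑ k ∈ range (E * (2 * j) + 1), ∑ w ∈ (K U (2 * j)).filter (fun w => sf R w = k),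
          Real.exp (2 * c * sf R w)
        ≤ ∑ k ∈ range (E * (2 * j) + 1), C * (2 * j) * gr Q ^ (2 * j) := by
          refine Finset.sum_le_sum fun k _ => ?_
          have e2 : ∑ w ∈ (K U (2 * j)).filter (fun w => sf R w = k),
              Real.exp (2 * c * sf R w) = (((K U (2 * j)).filter
                (fun w => sf R w = k)).card : ℝ) * Real.exp (2 * c * k) := by
            rw [← nsmul_eq_mul]
            refine Finset.sum_eq_card_nsmul fun w hw => ?_
            rw [(mem_filter.1 hw).2]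
          rw [e2]
          have h7 : (((K U (2 * j)).filter (fun w => sf R w = k)).card : ℝ) ≤
              C * (2 * j) * Real.exp (-(k / Z : ℝ)) * gr Q ^ (2 * j) := by
            refine le_trans ?_ (h3 k)
            have : ((K U (2 * j)).filter (fun w => sf R w = k)).card ≤
                ((K U (2 * j)).filter (fun w => k ≤ sf R w)).card := by
              refine card_le_card fun w hw => ?_
              rw [mem_filter] at hw ⊢
              exact ⟨hw.1, hw.2.ge⟩
            exact_mod_cast this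
          have h8 : Real.exp (-(k / Z : ℝ)) * Real.exp (2 * c * k) ≤ 1 := by
            rw [← Real.exp_add, Real.exp_le_one_iff, hcc]
            have e3 : -(k / Z : ℝ) + 2 * (1 / (4 * Z)) * k = -(k / (2 * Z)) := by
              field_simp
              ring
            rw [e3]
            have : (0 : ℝ) ≤ k / (2 * Z) := by positivity
            linarith
          calc _ ≤ C * (2 * j) * Real.exp (-(k / Z : ℝ)) * gr Q ^ (2 * j) *
                Real.exp (2 * c * k) := mul_le_mul_of_nonneg_right h7 (Real.exp_pos _).le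
            _ = C * (2 * j) * gr Q ^ (2 * j) *
                (Real.exp (-(k / Z : ℝ)) * Real.exp (2 * c * k)) := by ring
            _ ≤ C * (2 * j) * gr Q ^ (2 * j) * 1 :=
                mul_le_mul_of_nonneg_left h8 (by positivity)
            _ = _ := mul_one _
      _ = ((E * (2 * j) + 1 : ℕ) : ℝ) * (C * (2 * j) * gr Q ^ (2 * j)) := by
          rw [Finset.sum_const, card_range, nsmul_eq_mul]
      _ ≤ ((E + 1) * (2 * j)) * (C * (2 * j) * gr Q ^ (2 * j)) := by
          refine mul_le_mul_of_nonneg_right ?_ (by positivity)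
          push_cast
          nlinarith
      _ = _ := by ring
  have h9 : ∑ w ∈ K U (2 * j), Real.exp (c * sf R w) * Real.exp (c * X) ≤
      ∑ w ∈ K U (2 * j), Real.exp (2 * c * sf R w) := by
    refine Finset.sum_le_sum fun w hw => ?_
    obtain ⟨e1, e2, -⟩ := mem_K.1 hw
    rw [← Real.exp_add]
    apply Real.exp_le_exp.2
    have h10 := sf_lower R e2
    rw [e1] at h10
    push_cast at h10
    rw [← hX] at h10
    nlinarith
  rw [← Finset.sum_mul] at h9
  have h10 : (E + 1) * C * (2 * j : ℝ) ^ 2 ≤ Real.exp (c * X) := by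
    have e2 : -c * X = -(c * X) := by ring
    rw [e2, Real.exp_neg, ← mul_assoc, ← div_eq_mul_inv, div_lt_one (Real.exp_pos _)] at h4
    exact h4.le
  have h11 : (∑ w ∈ K U (2 * j), Real.exp (c * sf R w)) * Real.exp (c * X) ≤
      gr Q ^ (2 * j) * Real.exp (c * X) := by
    calc _ ≤ _ := h9
      _ ≤ _ := h6
      _ ≤ Real.exp (c * X) * gr Q ^ (2 * j) :=
          mul_le_mul_of_nonneg_right h10 (by positivity)
      _ = _ := mul_comm _ _
  exact le_of_mul_le_mul_right h11 (Real.exp_pos _)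

/-- the number of unknots is not much smaller than its growth -/
theorem u_low {η : ℝ} (hη : 0 < η) : ∀ᶠ j : ℕ in atTop,
    gr U ^ (2 * j) ≤ Real.exp (η * (2 * j)) * a U (2 * j) := by
  have h := KL.err_csum (GEN.kt_class sq) K2SHIFT.u_ne GEN.u_csum
  obtain ⟨g1, -, g2⟩ := gr_bounds U (GEN.kt_class sq) K2SHIFT.u_ne
  have hg : 0 < gr U := by linarith
  filter_upwards [h.eventually_lt_const hη, class_pos U (GEN.kt_class sq) K2SHIFT.u_ne,
    eventually_ge_atTop 1] with j h1 h2 h3
  have hj0 : (1 : ℝ) ≤ j := by exact_mod_cast h3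
  change Real.log (gr U ^ (2 * j) / pq U (2 * j)) / (2 * j) < η at h1
  rw [div_lt_iff₀ (by linarith)] at h1
  have h4 : gr U ^ (2 * j) / pq U (2 * j) ≤ Real.exp (η * (2 * j)) := by
    rw [← Real.log_le_iff_le_exp (div_pos (by positivity) h2)]
    exact h1.le
  rw [div_le_iff₀ h2] at h4
  exact h4.trans (mul_le_mul_of_nonneg_left (GEN.pn_le_a U j (by omega)) (Real.exp_pos _).le)

/-- **the mean surface** -/
theorem class_mean (hQ : KClass Q) (hne : ∃ w, SAP w ∧ Q w) {R : ℕ} {c : ℝ} (hc : 0 < c)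
    (h : ∀ᶠ j : ℕ in atTop, ∑ w ∈ K U (2 * j), Real.exp (c * sf R w) ≤ gr Q ^ (2 * j))
    {ε : ℝ} (hf : ∃ᶠ j : ℕ in atTop,
      ε * (2 * j) * a U (2 * j) ≤ ∑ w ∈ K U (2 * j), (sf R w : ℝ)) :
    gr U * Real.exp (c * ε) ≤ gr Q := by
  obtain ⟨g1, -, g2⟩ := gr_bounds Q hQ hne
  obtain ⟨g1', -, g2'⟩ := gr_bounds U (GEN.kt_class sq) K2SHIFT.u_ne
  have hg : 0 < gr Q := by linarith
  have hu : 0 < gr U := by linarith
  by_contra hcon
  push Not at hcon
  have h1 : Real.log (gr Q) < Real.log (gr U) + c * ε := by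
    have h2 := Real.log_lt_log hg hcon
    rw [Real.log_mul hu.ne' (Real.exp_pos _).ne', Real.log_exp] at h2
    exact h2
  obtain ⟨η, hη⟩ : ∃ η : ℝ, η = (Real.log (gr U) + c * ε - Real.log (gr Q)) / 2 := ⟨_, rfl⟩
  have hη0 : 0 < η := by rw [hη]; linarith
  obtain ⟨j, ⟨⟨h3, h4⟩, h5⟩, h6⟩ := (((hf.and_eventually h).and_eventually
    (u_low hη0)).and_eventually (eventually_ge_atTop 1)).exists
  have hj0 : (1 : ℝ) ≤ j := by exact_mod_cast h6
  have hj2 : (0 : ℝ) < 2 * j := by linarith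
  -- Jensen
  have h7 : Real.exp (c * ε * (2 * j)) * a U (2 * j) ≤
      ∑ w ∈ K U (2 * j), Real.exp (c * sf R w) := by
    have h8 : ∀ w ∈ K U (2 * j), Real.exp (c * ε * (2 * j)) *
        (1 + (c * sf R w - c * ε * (2 * j))) ≤ Real.exp (c * sf R w) := by
      intro w _
      have h9 := Real.add_one_le_exp (c * sf R w - c * ε * (2 * j))
      calc _ ≤ Real.exp (c * ε * (2 * j)) * Real.exp (c * sf R w - c * ε * (2 * j)) :=
            mul_le_mul_of_nonneg_left (by linarith) (Real.exp_pos _).le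
        _ = Real.exp (c * sf R w) := by
            rw [← Real.exp_add]
            congr 1
            ring
    refine le_trans ?_ (Finset.sum_le_sum h8)
    rw [← Finset.mul_sum]
    refine mul_le_mul_of_nonneg_left ?_ (Real.exp_pos _).le
    have e1 : ∑ w ∈ K U (2 * j), (1 + (c * sf R w - c * ε * (2 * j))) =
        a U (2 * j) + c * (∑ w ∈ K U (2 * j), (sf R w : ℝ) - ε * (2 * j) * a U (2 * j)) := by
      unfold a
      rw [Finset.sum_add_distrib, Finset.sum_sub_distrib, ← Finset.mul_sum]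
      simp only [Finset.sum_const, nsmul_eq_mul, mul_one]
      ring
    rw [e1]
    have : 0 ≤ c * (∑ w ∈ K U (2 * j), (sf R w : ℝ) - ε * (2 * j) * a U (2 * j)) :=
      mul_nonneg hc.le (by linarith)
    linarith
  have h8 := h7.trans h4
  have h9 : gr U ^ (2 * j) * Real.exp (c * ε * (2 * j)) ≤
      Real.exp (η * (2 * j)) * gr Q ^ (2 * j) := by
    calc gr U ^ (2 * j) * Real.exp (c * ε * (2 * j))
        ≤ Real.exp (η * (2 * j)) * a U (2 * j) * Real.exp (c * ε * (2 * j)) :=
          mul_le_mul_of_nonneg_right h5 (Real.exp_pos _).le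
      _ = Real.exp (η * (2 * j)) * (Real.exp (c * ε * (2 * j)) * a U (2 * j)) := by ring
      _ ≤ _ := mul_le_mul_of_nonneg_left h8 (Real.exp_pos _).le
  have h10 := Real.log_le_log (by positivity) h9
  rw [Real.log_mul (by positivity) (Real.exp_pos _).ne', Real.log_exp,
    Real.log_mul (Real.exp_pos _).ne' (by positivity), Real.log_exp, Real.log_pow,
    Real.log_pow] at h10
  push_cast at h10
  have h11 : (Real.log (gr U) + c * ε - η - Real.log (gr Q)) * (2 * j) ≤ 0 := by linarith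
  have h12 : 0 < Real.log (gr U) + c * ε - η - Real.log (gr Q) := by rw [hη]; linarith
  have := mul_pos h12 hj2
  linarith

/-- **the dichotomy** -/
theorem class_dich (hQ : KClass Q) (hne : ∃ w, SAP w ∧ Q w) {R : ℕ} {c : ℝ} (hc : 0 < c)
    (h : ∀ᶠ j : ℕ in atTop, ∑ w ∈ K U (2 * j), Real.exp (c * sf R w) ≤ gr Q ^ (2 * j)) :
    gr U < gr Q ∨ ∀ ε : ℝ, 0 < ε → ∀ᶠ j : ℕ in atTop,
      (((K U (2 * j)).filter (fun w => ε * (2 * j) ≤ sf R w)).card : ℝ) ≤
        Real.exp (-(c * ε / 2 * (2 * j))) * a U (2 * j) := by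
  by_cases hlt : gr U < gr Q
  · exact Or.inl hlt
  · right
    obtain ⟨g1, -, g2⟩ := gr_bounds Q hQ hne
    have hg : 0 < gr Q := by linarith
    intro ε hε
    filter_upwards [h, u_low (η := c * ε / 2) (by positivity)] with j h1 h2
    have h3 : (((K U (2 * j)).filter (fun w => ε * (2 * j) ≤ sf R w)).card : ℝ) *
        Real.exp (c * ε * (2 * j)) ≤ ∑ w ∈ K U (2 * j), Real.exp (c * sf R w) := by
      rw [← nsmul_eq_mul]
      refine (Finset.card_nsmul_le_sum _ (fun w => Real.exp (c * sf R w)) _ fun w hw => ?_).trans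
        (Finset.sum_le_sum_of_subset_of_nonneg (filter_subset _ _)
          (fun _ _ _ => (Real.exp_pos _).le))
      apply Real.exp_le_exp.2
      have := (mem_filter.1 hw).2
      calc c * ε * (2 * j) = c * (ε * (2 * j)) := by ring
        _ ≤ c * sf R w := mul_le_mul_of_nonneg_left this hc.le
    have h4 : gr Q ^ (2 * j) ≤ gr U ^ (2 * j) := pow_le_pow_left₀ hg.le (not_lt.1 hlt) _
    have h5 := ((h3.trans h1).trans h4).trans h2
    rw [Real.exp_neg, inv_mul_eq_div, le_div_iff₀ (Real.exp_pos _)]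
    have e : Real.exp (c * ε * (2 * j)) =
        Real.exp (c * ε / 2 * (2 * j)) * Real.exp (c * ε / 2 * (2 * j)) := by
      rw [← Real.exp_add]
      congr 1
      ring
    rw [e, ← mul_assoc, mul_comm (Real.exp (c * ε / 2 * (2 * j))) (a U (2 * j) : ℝ)] at h5
    exact le_of_mul_le_mul_right h5 (Real.exp_pos _)

end

end Pool.Agent.K6.H37.MS
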