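import Pool.Agent.H246K2.CONT
import Pool.Agent.H246K2.LW
import Pool.Agent.H246K3.YCNT
import Pool.Agent.H246K3.All3

/-!
# The surface of the neighbourhood of radius `R`
-/

set_option autoImplicit false

namespace Pool.Agent.K6.H37.MS

open Finset Filter Topology KN KN.K3YCNT KN.K2CONT
open scoped Classical

noncomputable section

/-- the lattice points whose distance from `P` is larger than `R` and at most `R + 1` -/
def shell (R : ℕ) (P : Finset Z3) : Finset Z3 :=
  (P.biUnion (fun p => box (R + 1) p)).filter (fun z =>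
    (∃ p ∈ P, dt (z - p) (z - p) ≤ ((R : ℤ) + 1) ^ 2) ∧
      ∀ p ∈ P, (R : ℤ) ^ 2 < dt (z - p) (z - p))

theorem mem_shell {R : ℕ} {P : Finset Z3} {z : Z3} : z ∈ shell R P ↔
    (∃ p ∈ P, dt (z - p) (z - p) ≤ ((R : ℤ) + 1) ^ 2) ∧
      ∀ p ∈ P, (R : ℤ) ^ 2 < dt (z - p) (z - p) := by
  unfold shell
  rw [mem_filter, and_iff_right_of_imp]
  rintro ⟨⟨p, hp, h⟩, -⟩
  rw [mem_biUnion]
  refine ⟨p, hp, ?_⟩
  rw [mem_box]
  have h1 := dt_box (p := z - p) (r := R + 1) (by push_cast; exact h)
  simp only [Finset.mem_product, Finset.mem_Icc] at h1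
  obtain ⟨h2, h3, h4⟩ := h1
  exact ⟨abs_le.2 h2, abs_le.2 h3, abs_le.2 h4⟩

/-- every point of the shell gives a contact -/
theorem shell_contacts (R : ℕ) (P : Finset Z3) :
    ∃ C : Finset Z3, C ⊆ P ∧ (∀ x ∈ C, ∃ N : Z3, Cont R {p | p ∈ P} x N) ∧
      (shell R P).card ≤ (2 * R + 3) ^ 3 * C.card := by
  have key : ∀ z : Z3, ∃ x : Z3, z ∈ shell R P → x ∈ P ∧ Cont R {p | p ∈ P} x (z - x) := by
    intro z
    by_cases hz : z ∈ shell R P
    swap
    · exact ⟨0, fun h => absurd h hz⟩
    obtain ⟨⟨p1, hp1, h1⟩, h2⟩ := mem_shell.1 hz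
    obtain ⟨x, hx, hxmin⟩ := Finset.exists_min_image P (fun p => dt (z - p) (z - p)) ⟨p1, hp1⟩
    refine ⟨x, fun _ => ⟨hx, hx, h2 x hx, (hxmin p1 hp1).trans h1, ?_⟩⟩
    intro p hp
    have h1 : dt (z - x) (z - x) ≤ dt (z - p) (z - p) := hxmin p hp
    have h2 : dt (z - p) (z - p) = dt (z - x) (z - x) - 2 * dt (z - x) (p - x) +
        dt (p - x) (p - x) := by
      unfold dt
      simp only [Prod.fst_sub, Prod.snd_sub]
      ring
    linarith
  choose x hx using key
  refine ⟨(shell R P).image x, ?_, ?_, ?_⟩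
  · intro y hy
    rw [Finset.mem_image] at hy
    obtain ⟨q, hq, rfl⟩ := hy
    exact (hx q hq).1
  · intro y hy
    rw [Finset.mem_image] at hy
    obtain ⟨q, hq, rfl⟩ := hy
    exact ⟨_, (hx q hq).2⟩
  · apply Finset.card_le_mul_card_image
    intro y _
    have hcard := card_box (R + 1) y
    have e : 2 * (R + 1) + 1 = 2 * R + 3 := by ring
    rw [e] at hcard
    rw [← hcard]
    apply Finset.card_le_card
    intro z hz
    rw [mem_filter] at hz
    obtain ⟨hz1, rfl⟩ := hz
    have h := (hx z hz1).2.2.2.1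
    rw [mem_box]
    have h1 := dt_box (p := z - x z) (r := R + 1) (by push_cast; exact h)
    simp only [Finset.mem_product, Finset.mem_Icc] at h1
    obtain ⟨h2, h3, h4⟩ := h1
    exact ⟨abs_le.2 h2, abs_le.2 h3, abs_le.2 h4⟩

/-- the shell is at least as large as every projection -/
theorem proj_shell (R : ℕ) (P : Finset Z3) (π : Z3 → ℤ × ℤ) (e : Z3) (he : dt e e = 1)
    (hπ : ∀ p, π (p + e) = π p) : (P.image π).card ≤ (shell R P).card := by
  have key : ∀ q : ℤ × ℤ, ∃ z : Z3, q ∈ P.image π → π z = q ∧ z ∈ shell R P := by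
    intro q
    by_cases hq : q ∈ P.image π
    · rw [Finset.mem_image] at hq
      obtain ⟨p0, hp0, rfl⟩ := hq
      obtain ⟨z, x, h1, h2, h3⟩ := one_line R P π e he hπ p0 hp0
      refine ⟨z, fun _ => ⟨h1, mem_shell.2 ⟨⟨x, h2, h3.2.2.1⟩, fun p hp => ?_⟩⟩⟩
      have h4 := h3.2.2.2 p hp
      have h5 := h3.2.1
      have h6 : dt (z - p) (z - p) = dt (z - x) (z - x) - 2 * dt (z - x) (p - x) +
          dt (p - x) (p - x) := by
        unfold dt
        simp only [Prod.fst_sub, Prod.snd_sub]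
        ring
      linarith
    · exact ⟨0, fun h => absurd h hq⟩
  choose z hz using key
  apply Finset.card_le_card_of_injOn z
  · intro q hq
    exact (hz q hq).2
  · intro q hq q' hq' h
    rw [← (hz q hq).1, ← (hz q' hq').1, h]

/-- changing a few points -/
theorem shell_change (R : ℕ) (P P' : Finset Z3) : (shell R P).card ≤ (shell R P').card +
    (2 * R + 3) ^ 3 * ((P' \ P).card + (P \ P').card) := by
  have hsub : shell R P ⊆ shell R P' ∪
      ((P' \ P) ∪ (P \ P')).biUnion (fun p => box (R + 1) p) := by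
    intro z hz
    obtain ⟨⟨p1, hp1, h1⟩, h2⟩ := mem_shell.1 hz
    rw [mem_union]
    have hb : ∀ p : Z3, dt (z - p) (z - p) ≤ ((R : ℤ) + 1) ^ 2 → z ∈ box (R + 1) p := by
      intro p h
      rw [mem_box]
      have h1 := dt_box (p := z - p) (r := R + 1) (by push_cast; exact h)
      simp only [Finset.mem_product, Finset.mem_Icc] at h1
      obtain ⟨h2, h3, h4⟩ := h1
      exact ⟨abs_le.2 h2, abs_le.2 h3, abs_le.2 h4⟩
    by_cases hp1' : p1 ∈ P'
    · by_cases h3 : ∀ p ∈ P', (R : ℤ) ^ 2 < dt (z - p) (z - p)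
      · exact Or.inl (mem_shell.2 ⟨⟨p1, hp1', h1⟩, h3⟩)
      · right
        push Not at h3
        obtain ⟨p, hp, h4⟩ := h3
        rw [mem_biUnion]
        refine ⟨p, ?_, hb p (h4.trans (by nlinarith [(Nat.cast_nonneg R : (0 : ℤ) ≤ R)]))⟩
        rw [mem_union, Finset.mem_sdiff]
        left
        exact ⟨hp, fun h5 => absurd (h2 p h5) (not_lt.2 h4)⟩
    · right
      rw [mem_biUnion]
      refine ⟨p1, ?_, hb p1 h1⟩
      rw [mem_union, Finset.mem_sdiff, Finset.mem_sdiff]
      exact Or.inr ⟨hp1, hp1'⟩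
  refine (card_le_card hsub).trans ((card_union_le _ _).trans (Nat.add_le_add_left ?_ _))
  refine (card_biUnion_le_card_mul _ _ ((2 * R + 3) ^ 3) (fun q _ => ?_)).trans ?_
  · rw [card_box]
    have e : 2 * (R + 1) + 1 = 2 * R + 3 := by ring
    rw [e]
  · rw [mul_comm]
    exact Nat.mul_le_mul_left _ (card_union_le _ _)

theorem dt_Rp : ∀ {d f : Dir}, perp d f → ∀ p : Z3, dt (Rp d f p) (Rp d f p) = dt p p := by
  intro d f h p
  unfold dt
  cases d <;> cases f <;> first
    | exact absurd h (by decide)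
    | (simp only [Rp, cr, vec, Prod.fst_add, Prod.snd_add, Prod.smul_fst, Prod.smul_snd,
        smul_eq_mul]; ring)

/-- rotations -/
theorem shell_rot (R : ℕ) (P : Finset Z3) {d f : Dir} (h : perp d f) :
    (shell R (P.image (Rp d f))).card = (shell R P).card := by
  obtain ⟨⟨d', f', h1, -, -, -, -, h2, h3⟩, -, -, h4⟩ := T_rtc_proof d f h
  have hsub : ∀ p q, Rp d f (p - q) = Rp d f p - Rp d f q := by
    intro p q
    have := h4 (p - q) q
    rw [sub_add_cancel] at this
    rw [this, add_sub_cancel_right]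
  have e : shell R (P.image (Rp d f)) = (shell R P).image (Rp d f) := by
    ext z
    rw [mem_shell, mem_image]
    constructor
    · rintro ⟨⟨p, hp, h5⟩, h6⟩
      refine ⟨Rp d' f' z, ?_, h3 z⟩
      obtain ⟨p0, hp0, rfl⟩ := mem_image.1 hp
      rw [mem_shell]
      refine ⟨⟨p0, hp0, ?_⟩, fun q hq => ?_⟩
      · rw [← dt_Rp h, hsub, h3]
        exact h5
      · rw [← dt_Rp h, hsub, h3]
        exact h6 _ (mem_image_of_mem _ hq)
    · rintro ⟨y, hy, rfl⟩
      obtain ⟨⟨p, hp, h5⟩, h6⟩ := mem_shell.1 hy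
      refine ⟨⟨Rp d f p, mem_image_of_mem _ hp, ?_⟩, fun q hq => ?_⟩
      · rw [← hsub, dt_Rp h]
        exact h5
      · obtain ⟨q0, hq0, rfl⟩ := mem_image.1 hq
        rw [← hsub, dt_Rp h]
        exact h6 q0 hq0
  rw [e, card_image_of_injective _ (Function.LeftInverse.injective h2)]

/-- the number of lattice points at distance more than `R` and at most `R + 1` from a word -/
def sf (R : ℕ) (w : List Dir) : ℕ := (shell R (path w).toFinset).card

theorem sf_rot (R : ℕ) (w : List Dir) {d f : Dir} (h : perp d f) :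
    sf R (w.map (rt d f)) = sf R w := by
  unfold sf
  rw [← shell_rot R (path w).toFinset h, ((T_rtc_proof d f h).2.2.1 w).2]
  congr 2
  ext z
  simp

/-- exchange of two letters -/
theorem sf_swap (R : ℕ) (l1 l2 : List Dir) (a b : Dir) :
    sf R (l1 ++ a :: b :: l2) ≤ sf R (l1 ++ b :: a :: l2) + 2 * (2 * R + 3) ^ 3 := by
  have h := shell_change R (path (l1 ++ a :: b :: l2)).toFinset
    (path (l1 ++ b :: a :: l2)).toFinset
  have hone : ∀ a b : Dir, ((path (l1 ++ a :: b :: l2)).toFinset \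
      (path (l1 ++ b :: a :: l2)).toFinset).card ≤ 1 := by
    intro a b
    rw [Finset.card_le_one]
    have hpos : pos (a :: b :: l2) = pos (b :: a :: l2) := by
      simp only [pos]
      abel
    have key : ∀ p, p ∈ (path (l1 ++ a :: b :: l2)).toFinset \
        (path (l1 ++ b :: a :: l2)).toFinset → p = pos (b :: l2) := by
      intro p hp
      rw [Finset.mem_sdiff, List.mem_toFinset, List.mem_toFinset, QL.mem_path_append,
        QL.mem_path_append, not_or] at hp
      obtain ⟨h1, h2, h3⟩ := hp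
      rcases h1 with h1 | ⟨q, hq, rfl⟩
      · rw [path, List.mem_cons] at h1
        rcases h1 with rfl | h1
        · exfalso
          apply h2
          have e : pos (b :: l2) + vec a = pos (b :: a :: l2) := by
            rw [← hpos]
            rfl
          rw [e]
          exact pos_mem_path _
        · rw [path, List.mem_cons] at h1
          rcases h1 with rfl | h1
          · rfl
          · exfalso
            apply h2
            rw [path, path]
            exact List.mem_cons_of_mem _ (List.mem_cons_of_mem _ h1)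
      · exact absurd ⟨q, hq, by rw [hpos]⟩ h3
    intro p hp q hq
    rw [key p hp, key q hq]
  have h1 := hone a b
  have h2 := hone b a
  unfold sf
  refine h.trans (Nat.add_le_add_left ?_ _)
  rw [mul_comm 2 ((2 * R + 3) ^ 3)]
  exact Nat.mul_le_mul_left _ (by omega)

/-- a longer word -/
theorem sf_longer (R : ℕ) {w w' : List Dir} (hw : SAP w) (hw' : SAP w')
    (h : ∀ p ∈ path w, p ∈ path w') :
    sf R w ≤ sf R w' + (2 * R + 3) ^ 3 * (w'.length - w.length) := by
  have h1 := shell_change R (path w).toFinset (path w').toFinset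
  have hsub : (path w).toFinset ⊆ (path w').toFinset := by
    intro p hp
    rw [List.mem_toFinset] at hp ⊢
    exact h p hp
  have h2 : ((path w).toFinset \ (path w').toFinset).card = 0 := by
    rw [Finset.sdiff_eq_empty_iff_subset.2 hsub, Finset.card_empty]
  have h3 : ((path w').toFinset \ (path w).toFinset).card = w'.length - w.length := by
    rw [Finset.card_sdiff_of_subset hsub, K2MANY.card_path w' hw', K2MANY.card_path w hw]
  rw [h2, h3, add_zero] at h1
  exact h1

/-- many contacts -/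
theorem sf_contacts (R : ℕ) (w : List Dir) : ∃ C : Finset Z3,
    sf R w ≤ (2 * R + 3) ^ 3 * (C.card + 2197) ∧
    ∀ x ∈ C, ¬ near 6 x 0 ∧ ∃ N : Z3, Cont R {p | p ∈ path w} x N := by
  obtain ⟨C0, hC0, hc, hcard⟩ := shell_contacts R (path w).toFinset
  refine ⟨C0.filter (fun x => ¬ near 6 x 0), ?_, ?_⟩
  · have h1 := Finset.card_filter_add_card_filter_not (s := C0) (fun x => near 6 x 0)
    have h2 := K2MANY.card_near C0
    unfold sf
    exact hcard.trans (Nat.mul_le_mul_left _ (by omega))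
  · intro x hx
    rw [Finset.mem_filter] at hx
    refine ⟨hx.2, ?_⟩
    obtain ⟨N, hN⟩ := hc x hx.1
    refine ⟨N, ?_⟩
    have e : {p | p ∈ (path w).toFinset} = {p | p ∈ path w} := by
      ext p; simp
    rw [e] at hN
    exact hN

/-- the projections -/
theorem sf_proj (R : ℕ) (w : List Dir) :
    ((path w).toFinset.image (fun p => (p.2.1, p.2.2))).card ≤ sf R w ∧
    ((path w).toFinset.image (fun p => (p.1, p.2.2))).card ≤ sf R w ∧
    ((path w).toFinset.image (fun p => (p.1, p.2.1))).card ≤ sf R w := by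
  refine ⟨?_, ?_, ?_⟩
  · exact proj_shell R _ (fun p => (p.2.1, p.2.2)) (1, 0, 0) (by rfl)
      (fun p => by rw [Prod.mk.injEq]; exact ⟨add_zero _, add_zero _⟩)
  · exact proj_shell R _ (fun p => (p.1, p.2.2)) (0, 1, 0) (by rfl)
      (fun p => by rw [Prod.mk.injEq]; exact ⟨add_zero _, add_zero _⟩)
  · exact proj_shell R _ (fun p => (p.1, p.2.1)) (0, 0, 1) (by rfl)
      (fun p => by rw [Prod.mk.injEq]; exact ⟨add_zero _, add_zero _⟩)

/-- the surface is at least `n ^ (2 / 3)` -/
theorem sf_lower (R : ℕ) {w : List Dir} (hw : SAP w) :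
    (w.length : ℝ) ^ (2 / 3 : ℝ) ≤ sf R w := by
  obtain ⟨h1, h2, h3⟩ := sf_proj R w
  have h := T_LW_proof (path w).toFinset
  rw [K2MANY.card_path w hw] at h
  have hm : w.length ^ 2 ≤ sf R w ^ 3 := by
    refine h.trans ?_
    rw [pow_succ, pow_two]
    exact Nat.mul_le_mul (Nat.mul_le_mul h1 h2) h3
  have h2 : ((w.length : ℝ)) ^ (2 : ℕ) ≤ (sf R w : ℝ) ^ (3 : ℕ) := by exact_mod_cast hm
  have h3 : ((w.length : ℝ)) ^ (2 / 3 : ℝ) = (((w.length : ℝ)) ^ (2 : ℕ)) ^ (1 / 3 : ℝ) := by
    rw [← Real.rpow_natCast, ← Real.rpow_mul (by positivity)]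
    norm_num
  have h4 : (sf R w : ℝ) = ((sf R w : ℝ) ^ (3 : ℕ)) ^ (1 / 3 : ℝ) := by
    rw [← Real.rpow_natCast, ← Real.rpow_mul (by positivity)]
    norm_num
  rw [h3, h4]
  exact Real.rpow_le_rpow (sq_nonneg _) h2 (by norm_num)

/-- an upper bound -/
theorem sf_upper (R : ℕ) {w : List Dir} (hw : SAP w) : sf R w ≤ (2 * R + 3) ^ 3 * w.length := by
  unfold sf shell
  refine (Finset.card_filter_le _ _).trans ?_
  refine (card_biUnion_le_card_mul _ _ ((2 * R + 3) ^ 3) (fun q _ => ?_)).trans ?_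
  · rw [card_box]
    have e : 2 * (R + 1) + 1 = 2 * R + 3 := by ring
    rw [e]
  · rw [K2MANY.card_path w hw, mul_comm]

end

end Pool.Agent.K6.H37.MS
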